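import Mathlib

/-!
Tools for the counting theorem on no-three-in-line sets: the function `psi`, the averaging operator
over `t`-subsets, entropies of an exchangeable weight system and the mutual information identity.
-/

namespace Pool.Agent.MP_67c479_co.H41

open Finset Real

set_option linter.unusedSectionVars false

/-- The summand of relative entropy. -/
noncomputable def psi (p q : ℝ) : ℝ := p * log p - p * log q - p + q

lemma psi_zero (q : ℝ) : psi 0 q = q := by simp [psi]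

lemma psi_tangent {p q l : ℝ} (hp : 0 ≤ p) (hq : 0 ≤ q) (hpq : q = 0 → p = 0) (hl : 0 < l) :
    p * log l + (1 - l) * q ≤ psi p q := by
  rcases hp.eq_or_lt with h | h
  · subst h
    rw [psi_zero]
    nlinarith
  · have hq' : 0 < q := by
      rcases hq.eq_or_lt with h' | h'
      · exact absurd (hpq h'.symm) h.ne'
      · exact h'
    have h1 : log (l * q / p) ≤ l * q / p - 1 := log_le_sub_one_of_pos (by positivity)
    rw [log_div (by positivity) h.ne', log_mul hl.ne' hq'.ne'] at h1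
    have h2 : p * (log l + log q - log p) ≤ p * (l * q / p - 1) :=
      mul_le_mul_of_nonneg_left h1 hp
    have h3 : p * (l * q / p - 1) = l * q - p := by field_simp
    unfold psi
    nlinarith

lemma psi_nonneg {p q : ℝ} (hp : 0 ≤ p) (hq : 0 ≤ q) (hpq : q = 0 → p = 0) : 0 ≤ psi p q := by
  simpa using psi_tangent hp hq hpq one_pos

lemma psi_half {p q : ℝ} (hp : 0 ≤ p) (hq : 0 ≤ q) (hpq : q = 0 → p = 0) :
    q / 2 - p ≤ psi p q := by
  have h := psi_tangent hp hq hpq (l := 1 / 2) (by norm_num)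
  have h2 : -1 ≤ log (1 / 2 : ℝ) := by
    rw [one_div, log_inv]
    have := log_two_lt_d9
    linarith
  nlinarith

lemma psi_big {p q : ℝ} (hp : 0 ≤ p) (hq : 0 ≤ q) (hpq : q = 0 → p = 0) (h3 : 3 * q ≤ p) :
    q ≤ psi p q := by
  have h := psi_tangent hp hq hpq (l := 3) (by norm_num)
  have h2 : 1 ≤ log (3 : ℝ) := by
    rw [le_log_iff_exp_le (by norm_num)]
    have := exp_one_lt_d9
    linarith
  nlinarith

lemma psi_heavy {p u K : ℝ} (hp : 0 ≤ p) (hu : 0 ≤ u) (hpq : u = 0 → p = 0) (hK : 0 < K)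
    (h : K * u ≤ p) : p * (log K - 1) ≤ psi p u := by
  have := psi_tangent hp hu hpq hK
  nlinarith

variable {α : Type*} [DecidableEq α]

/-- Sum over ordered `t`-tuples of distinct points of `G` of a function of the underlying set. -/
noncomputable def A (G : Finset α) (t : ℕ) (f : Finset α → ℝ) : ℝ :=
  (t.factorial : ℝ) * ∑ W ∈ powersetCard t G, f W

lemma base (G : Finset α) (t : ℕ) (φ : α → Finset α → ℝ) :
    ∑ W ∈ powersetCard (t + 1) G, ∑ P ∈ W, φ P W
      = ∑ W ∈ powersetCard t G, ∑ P ∈ G \ W, φ P (insert P W) := by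
  rw [sum_sigma', sum_sigma']
  symm
  refine sum_bij' (fun x _ => (⟨insert x.2 x.1, x.2⟩ : Σ _ : Finset α, α))
    (fun x _ => (⟨x.1.erase x.2, x.2⟩ : Σ _ : Finset α, α)) ?_ ?_ ?_ ?_ ?_
  · rintro ⟨W, P⟩ h
    simp only [mem_sigma, mem_powersetCard, mem_sdiff] at h ⊢
    refine ⟨⟨insert_subset h.2.1 h.1.1, ?_⟩, mem_insert_self _ _⟩
    rw [card_insert_of_notMem h.2.2, h.1.2]
  · rintro ⟨W, P⟩ h
    simp only [mem_sigma, mem_powersetCard, mem_sdiff] at h ⊢
    refine ⟨⟨(erase_subset _ _).trans h.1.1, ?_⟩, h.1.1 h.2, notMem_erase _ _⟩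
    rw [card_erase_of_mem h.2, h.1.2]; rfl
  · rintro ⟨W, P⟩ h
    simp only [mem_sigma, mem_powersetCard, mem_sdiff] at h
    simp [erase_insert h.2.2]
  · rintro ⟨W, P⟩ h
    simp only [mem_sigma, mem_powersetCard] at h
    simp [insert_erase h.2]
  · rintro ⟨W, P⟩ _
    rfl

lemma A_mem (G : Finset α) (t : ℕ) (φ : α → Finset α → ℝ) :
    A G (t + 1) (fun W => ∑ P ∈ W, φ P W)
      = (t + 1) * A G t (fun W => ∑ P ∈ G \ W, φ P (insert P W)) := by
  unfold A
  rw [base, Nat.factorial_succ]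
  push_cast
  ring

lemma A_congr {G : Finset α} {t : ℕ} {f g : Finset α → ℝ}
    (h : ∀ W ⊆ G, W.card = t → f W = g W) : A G t f = A G t g := by
  unfold A
  congr 1
  refine sum_congr rfl fun W hW => ?_
  rw [mem_powersetCard] at hW
  exact h W hW.1 hW.2

lemma A_mono {G : Finset α} {t : ℕ} {f g : Finset α → ℝ}
    (h : ∀ W ⊆ G, W.card = t → f W ≤ g W) : A G t f ≤ A G t g := by
  unfold A
  refine mul_le_mul_of_nonneg_left (sum_le_sum fun W hW => ?_) (by positivity)
  rw [mem_powersetCard] at hW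
  exact h W hW.1 hW.2

lemma A_add (G : Finset α) (t : ℕ) (f g : Finset α → ℝ) :
    A G t (fun W => f W + g W) = A G t f + A G t g := by
  unfold A
  rw [sum_add_distrib]; ring

lemma A_sub (G : Finset α) (t : ℕ) (f g : Finset α → ℝ) :
    A G t (fun W => f W - g W) = A G t f - A G t g := by
  unfold A
  rw [sum_sub_distrib]; ring

lemma A_mul (G : Finset α) (t : ℕ) (c : ℝ) (f : Finset α → ℝ) :
    A G t (fun W => c * f W) = c * A G t f := by
  unfold A
  rw [← mul_sum]; ring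

lemma A_sum {ι : Type*} (G : Finset α) (t : ℕ) (V : Finset ι) (f : ι → Finset α → ℝ) :
    A G t (fun W => ∑ v ∈ V, f v W) = ∑ v ∈ V, A G t (f v) := by
  unfold A
  rw [sum_comm, mul_sum]

lemma A_nonneg {G : Finset α} {t : ℕ} {f : Finset α → ℝ}
    (h : ∀ W ⊆ G, W.card = t → 0 ≤ f W) : 0 ≤ A G t f := by
  have := A_mono (G := G) (t := t) (f := fun _ => 0) (g := f) h
  simpa [A] using this

lemma A_succ (G : Finset α) (t : ℕ) (f : Finset α → ℝ) :
    A G (t + 1) f = A G t (fun W => ∑ Q ∈ G \ W, f (insert Q W)) := by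
  have h1 := A_mem G t (fun _ W => f W)
  have h2 : A G (t + 1) (fun W => ∑ _P ∈ W, f W) = A G (t + 1) (fun W => ((t : ℝ) + 1) * f W) := by
    refine A_congr fun W _ hW => ?_
    rw [sum_const, hW, nsmul_eq_mul]; push_cast; ring
  rw [h2, A_mul] at h1
  have h3 : ((t : ℝ) + 1) ≠ 0 := by positivity
  exact mul_left_cancel₀ h3 h1

lemma A_zero (G : Finset α) (f : Finset α → ℝ) : A G 0 f = f ∅ := by
  simp [A]

/-- An exchangeable weight system of length `k` on `G`: `m W` is the probability that the first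
`|W|` points are the points of `W` in a given order. -/
structure Sys (G : Finset α) (k : ℕ) (m : Finset α → ℝ) : Prop where
  nonneg : ∀ W, 0 ≤ m W
  mart : ∀ W ⊆ G, W.card < k → ∑ Q ∈ G \ W, m (insert Q W) = m W
  empty : m ∅ = 1

variable {G : Finset α} {k : ℕ} {m : Finset α → ℝ}

lemma Sys.A_m (h : Sys G k m) : ∀ t ≤ k, A G t m = 1 := by
  intro t
  induction t with
  | zero => intro _; rw [A_zero, h.empty]
  | succ t ih =>
    intro ht
    rw [A_succ, ← ih (by omega)]
    exact A_congr fun W hW hc => h.mart W hW (by omega)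

lemma Sys.le (h : Sys G k m) {W : Finset α} (hW : W ⊆ G) (hc : W.card < k) {Q : α}
    (hQ : Q ∈ G \ W) : m (insert Q W) ≤ m W := by
  rw [← h.mart W hW hc]
  exact single_le_sum (f := fun Q => m (insert Q W)) (fun Q _ => h.nonneg _) hQ

/-- Joint weight of the next two points. -/
noncomputable def pp (m : Finset α → ℝ) (W : Finset α) (Q R : α) : ℝ :=
  if Q = R then 0 else m (insert R (insert Q W))

/-- Product weight of the next two points. -/
noncomputable def qq (m : Finset α → ℝ) (W : Finset α) (Q R : α) : ℝ :=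
  m (insert Q W) * m (insert R W) / m W

/-- Local mutual information. -/
noncomputable def J (G : Finset α) (m : Finset α → ℝ) (W : Finset α) : ℝ :=
  ∑ Q ∈ G \ W, ∑ R ∈ G \ W, psi (pp m W Q R) (qq m W Q R)

/-- Entropy of the first `t` points. -/
noncomputable def H (G : Finset α) (m : Finset α → ℝ) (t : ℕ) : ℝ :=
  - A G t (fun W => m W * log (m W))

lemma Sys.pp_nonneg (h : Sys G k m) (W : Finset α) (Q R : α) : 0 ≤ pp m W Q R := by
  unfold pp; split_ifs
  · exact le_rfl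
  · exact h.nonneg _

lemma Sys.qq_nonneg (h : Sys G k m) (W : Finset α) (Q R : α) : 0 ≤ qq m W Q R := by
  unfold qq
  exact div_nonneg (mul_nonneg (h.nonneg _) (h.nonneg _)) (h.nonneg _)

lemma pp_comm (m : Finset α → ℝ) (W : Finset α) (Q R : α) : pp m W Q R = pp m W R Q := by
  unfold pp
  by_cases hQ : Q = R
  · simp [hQ]
  · rw [if_neg hQ, if_neg (Ne.symm hQ), Finset.insert_comm]

lemma sdiff_insert_eq (G W : Finset α) (Q : α) : G \ insert Q W = (G \ W).erase Q := by
  ext x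
  simp only [mem_sdiff, mem_insert, mem_erase, not_or]
  tauto

lemma sum_pp_gen (m : Finset α → ℝ) (G W : Finset α) (Q : α) (g : ℝ → α → ℝ)
    (hg : ∀ R, g 0 R = 0) :
    ∑ R ∈ G \ W, g (pp m W Q R) R = ∑ R ∈ G \ insert Q W, g (m (insert R (insert Q W))) R := by
  rw [sdiff_insert_eq]
  rw [← sum_erase (G \ W) (a := Q) (by simp [pp, hg])]
  refine sum_congr rfl fun R hR => ?_
  have : Q ≠ R := (ne_of_mem_erase hR).symm
  simp [pp, this]

lemma Sys.sum_pp (h : Sys G k m) {W : Finset α} (hW : W ⊆ G) (hc : W.card + 2 ≤ k) {Q : α}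
    (hQ : Q ∈ G \ W) : ∑ R ∈ G \ W, pp m W Q R = m (insert Q W) := by
  have := sum_pp_gen m G W Q (fun x _ => x) (fun _ => rfl)
  rw [this]
  rw [mem_sdiff] at hQ
  refine h.mart _ (insert_subset hQ.1 hW) ?_
  rw [card_insert_of_notMem hQ.2]; omega

lemma Sys.pp_le (h : Sys G k m) {W : Finset α} (hW : W ⊆ G) (hc : W.card + 2 ≤ k) {Q R : α}
    (hQ : Q ∈ G \ W) (hR : R ∈ G \ W) : pp m W Q R ≤ m (insert Q W) := by
  rw [← h.sum_pp hW hc hQ]
  exact single_le_sum (f := fun R => pp m W Q R) (fun R _ => h.pp_nonneg W Q R) hR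

lemma Sys.pos_of_pp (h : Sys G k m) {W : Finset α} (hW : W ⊆ G) (hc : W.card + 2 ≤ k) {Q R : α}
    (hQ : Q ∈ G \ W) (hR : R ∈ G \ W) (hp : pp m W Q R ≠ 0) :
    0 < m (insert Q W) ∧ 0 < m (insert R W) ∧ 0 < m W := by
  have h0 : 0 < pp m W Q R := lt_of_le_of_ne (h.pp_nonneg W Q R) hp.symm
  have h1 := h.pp_le hW hc hQ hR
  have h2 := h.pp_le hW hc hR hQ
  rw [pp_comm] at h2
  have h3 := h.le hW (by omega) hQ
  exact ⟨by linarith, by linarith, by linarith⟩

lemma Sys.qq_zero (h : Sys G k m) {W : Finset α} (hW : W ⊆ G) (hc : W.card + 2 ≤ k) {Q R : α}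
    (hQ : Q ∈ G \ W) (hR : R ∈ G \ W) (hq : qq m W Q R = 0) : pp m W Q R = 0 := by
  by_contra hp
  obtain ⟨h1, h2, h3⟩ := h.pos_of_pp hW hc hQ hR hp
  have : 0 < qq m W Q R := by unfold qq; positivity
  exact this.ne' hq

lemma Sys.psi_nonneg' (h : Sys G k m) {W : Finset α} (hW : W ⊆ G) (hc : W.card + 2 ≤ k) {Q R : α}
    (hQ : Q ∈ G \ W) (hR : R ∈ G \ W) : 0 ≤ psi (pp m W Q R) (qq m W Q R) :=
  psi_nonneg (h.pp_nonneg _ _ _) (h.qq_nonneg _ _ _) (h.qq_zero hW hc hQ hR)

lemma Sys.J_eq (h : Sys G k m) {W : Finset α} (hW : W ⊆ G) (hc : W.card + 2 ≤ k) :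
    J G m W = ∑ Q ∈ G \ W, ∑ R ∈ G \ insert Q W,
        m (insert R (insert Q W)) * log (m (insert R (insert Q W)))
      - 2 * ∑ Q ∈ G \ W, m (insert Q W) * log (m (insert Q W)) + m W * log (m W) := by
  have hterm : ∀ Q ∈ G \ W, ∀ R ∈ G \ W, psi (pp m W Q R) (qq m W Q R)
      = pp m W Q R * log (pp m W Q R) - pp m W Q R * log (m (insert Q W))
        - pp m W Q R * log (m (insert R W)) + pp m W Q R * (log (m W) - 1) + qq m W Q R := by
    intro Q hQ R hR
    by_cases hp : pp m W Q R = 0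
    · rw [hp, psi_zero]; ring
    · obtain ⟨h1, h2, h3⟩ := h.pos_of_pp hW hc hQ hR hp
      have : log (qq m W Q R) = log (m (insert Q W)) + log (m (insert R W)) - log (m W) := by
        unfold qq
        rw [log_div (by positivity) h3.ne', log_mul h1.ne' h2.ne']
      unfold psi
      rw [this]; ring
  have hm := h.mart W hW (by omega)
  have e1 : ∑ Q ∈ G \ W, ∑ R ∈ G \ W, pp m W Q R * log (pp m W Q R)
      = ∑ Q ∈ G \ W, ∑ R ∈ G \ insert Q W,
        m (insert R (insert Q W)) * log (m (insert R (insert Q W))) :=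
    sum_congr rfl fun Q _ => sum_pp_gen m G W Q (fun x _ => x * log x) (by simp)
  have e2 : ∑ Q ∈ G \ W, ∑ R ∈ G \ W, pp m W Q R * log (m (insert Q W))
      = ∑ Q ∈ G \ W, m (insert Q W) * log (m (insert Q W)) :=
    sum_congr rfl fun Q hQ => by rw [← sum_mul, h.sum_pp hW hc hQ]
  have e3 : ∑ Q ∈ G \ W, ∑ R ∈ G \ W, pp m W Q R * log (m (insert R W))
      = ∑ Q ∈ G \ W, m (insert Q W) * log (m (insert Q W)) := by
    rw [sum_comm]
    refine sum_congr rfl fun R hR => ?_
    rw [← sum_mul, ← h.sum_pp hW hc hR]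
    congr 1
    exact sum_congr rfl fun Q _ => pp_comm m W Q R
  have e4 : ∑ Q ∈ G \ W, ∑ R ∈ G \ W, pp m W Q R * (log (m W) - 1) = m W * (log (m W) - 1) := by
    have : ∑ Q ∈ G \ W, ∑ R ∈ G \ W, pp m W Q R * (log (m W) - 1)
        = ∑ Q ∈ G \ W, m (insert Q W) * (log (m W) - 1) :=
      sum_congr rfl fun Q hQ => by rw [← sum_mul, h.sum_pp hW hc hQ]
    rw [this, ← sum_mul, hm]
  have e5 : ∑ Q ∈ G \ W, ∑ R ∈ G \ W, qq m W Q R = m W := by
    have : ∑ Q ∈ G \ W, ∑ R ∈ G \ W, qq m W Q R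
        = (∑ Q ∈ G \ W, m (insert Q W)) * (∑ R ∈ G \ W, m (insert R W)) / m W := by
      rw [sum_mul_sum, sum_div]
      refine sum_congr rfl fun Q _ => ?_
      rw [sum_div]; rfl
    rw [this, hm]
    by_cases h0 : m W = 0
    · simp [h0]
    · field_simp
  unfold J
  rw [sum_congr rfl fun Q hQ => sum_congr rfl fun R hR => hterm Q hQ R hR]
  simp only [sum_add_distrib, sum_sub_distrib]
  rw [e1, e2, e3, e4, e5]
  ring

lemma Sys.A_J (h : Sys G k m) {t : ℕ} (ht : t + 2 ≤ k) :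
    A G t (J G m) = 2 * H G m (t + 1) - H G m t - H G m (t + 2) := by
  have e : A G t (J G m) = A G t (fun W => (∑ Q ∈ G \ W, ∑ R ∈ G \ insert Q W,
        m (insert R (insert Q W)) * log (m (insert R (insert Q W)))
      - 2 * ∑ Q ∈ G \ W, m (insert Q W) * log (m (insert Q W))) + m W * log (m W)) :=
    A_congr fun W hW hc => h.J_eq hW (by omega)
  rw [e, A_add, A_sub, A_mul]
  unfold H
  rw [A_succ G (t + 1), A_succ G t, A_succ G t]
  ring

lemma Sys.A_J_nonneg (h : Sys G k m) {t : ℕ} (ht : t + 2 ≤ k) : 0 ≤ A G t (J G m) :=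
  A_nonneg fun W hW hc => sum_nonneg fun _ hQ => sum_nonneg fun _ hR =>
    h.psi_nonneg' hW (by omega) hQ hR

end Pool.Agent.MP_67c479_co.H41
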