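import Pool.Agent.MP_67c479_co.H41.Basic

/-!
The three inequalities (heavy atoms, pairs, triples) and the entropy deficiency bound for a weight
system supported on sets with at most two points on each line of a family of directions.
-/

namespace Pool.Agent.MP_67c479_co.H41

open Finset Real

set_option linter.unusedSectionVars false

variable {α : Type*} [DecidableEq α] {ι : Type*} [DecidableEq ι]

/-- A family of directions: `f v` is constant exactly on the lines of direction `v`. -/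
structure Dirs (G : Finset α) (m : Finset α → ℝ) (V : Finset ι) (f : ι → α → ℤ) (L : ι → ℝ) :
    Prop where
  uniq : ∀ v ∈ V, ∀ w ∈ V, ∀ P ∈ G, ∀ Q ∈ G, P ≠ Q → f v P = f v Q → f w P = f w Q → v = w
  two : ∀ W ⊆ G, 0 < m W → ∀ v ∈ V, ∀ z, (W.filter (fun P => f v P = z)).card ≤ 2
  lines : ∀ v ∈ V, ((G.image (f v)).card : ℝ) ≤ L v

/-- Light next points. -/
noncomputable def lt (G : Finset α) (m : Finset α → ℝ) (τ : ℝ) (W : Finset α) : Finset α :=
  (G \ W).filter (fun Q => m (insert Q W) ≤ τ * m W)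

/-- Weight of the heavy next points. -/
noncomputable def hv (G : Finset α) (m : Finset α → ℝ) (τ : ℝ) (W : Finset α) : ℝ :=
  m W - ∑ Q ∈ lt G m τ W, m (insert Q W)

/-- Entropy deficiency of point number `t+1`. -/
noncomputable def dl (G : Finset α) (m : Finset α → ℝ) (t : ℕ) : ℝ :=
  log G.card - (H G m (t + 1) - H G m t)

/-- Light weight of the next point on the line of `g` through `P`. -/
noncomputable def Y (G : Finset α) (m : Finset α → ℝ) (τ : ℝ) (g : α → ℤ) (P : α)
    (W : Finset α) : ℝ :=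
  ∑ Q ∈ (lt G m τ W).filter (fun Q => g Q = g P), m (insert Q W)

/-- Part of the local mutual information carried by light pairs on a line of `g`. -/
noncomputable def D (G : Finset α) (m : Finset α → ℝ) (τ : ℝ) (g : α → ℤ) (W : Finset α) : ℝ :=
  ∑ P ∈ lt G m τ W, ∑ Q ∈ lt G m τ W,
    if P ≠ Q ∧ g P = g Q then psi (pp m W P Q) (qq m W P Q) else 0

variable {G : Finset α} {k : ℕ} {m : Finset α → ℝ} {V : Finset ι} {f : ι → α → ℤ} {L : ι → ℝ}

lemma lt_subset (G : Finset α) (m : Finset α → ℝ) (τ : ℝ) (W : Finset α) :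
    lt G m τ W ⊆ G \ W := filter_subset _ _

lemma lt_le {τ : ℝ} {W : Finset α} {Q : α} (hQ : Q ∈ lt G m τ W) :
    m (insert Q W) ≤ τ * m W := (mem_filter.1 hQ).2

lemma Sys.hv_eq (h : Sys G k m) (τ : ℝ) {W : Finset α} (hW : W ⊆ G) (hc : W.card < k) :
    hv G m τ W = ∑ Q ∈ (G \ W).filter (fun Q => ¬ m (insert Q W) ≤ τ * m W), m (insert Q W) := by
  have := sum_filter_add_sum_filter_not (G \ W) (fun Q => m (insert Q W) ≤ τ * m W)
    (fun Q => m (insert Q W))
  rw [h.mart W hW hc] at this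
  unfold hv lt
  linarith

lemma Sys.hv_nonneg (h : Sys G k m) (τ : ℝ) {W : Finset α} (hW : W ⊆ G) (hc : W.card < k) :
    0 ≤ hv G m τ W := by
  rw [h.hv_eq τ hW hc]
  exact sum_nonneg fun _ _ => h.nonneg _

lemma Sys.local_unif (h : Sys G k m) (hG : 0 < G.card) {W : Finset α} (hW : W ⊆ G)
    (hc : W.card < k) :
    ∑ Q ∈ G \ W, psi (m (insert Q W)) (m W / G.card)
      ≤ m W * log G.card + ∑ Q ∈ G \ W, m (insert Q W) * log (m (insert Q W))
        - m W * log (m W) := by
  have hN : (0 : ℝ) < G.card := by exact_mod_cast hG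
  have hm := h.mart W hW hc
  have e : ∑ Q ∈ G \ W, psi (m (insert Q W)) (m W / G.card)
      = ∑ Q ∈ G \ W, m (insert Q W) * log (m (insert Q W)) - m W * log (m W / G.card) - m W
        + (G \ W).card * (m W / G.card) := by
    unfold psi
    rw [sum_add_distrib, sum_sub_distrib, sum_sub_distrib, ← sum_mul, hm, sum_const, nsmul_eq_mul]
  rw [e]
  have h1 : ((G \ W).card : ℝ) * (m W / G.card) ≤ m W := by
    have : ((G \ W).card : ℝ) ≤ G.card := by exact_mod_cast card_le_card sdiff_subset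
    calc ((G \ W).card : ℝ) * (m W / G.card) ≤ G.card * (m W / G.card) :=
          mul_le_mul_of_nonneg_right this (div_nonneg (h.nonneg _) hN.le)
      _ = m W := by field_simp
  have h2 : m W * log (m W / G.card) = m W * log (m W) - m W * log G.card := by
    by_cases h0 : m W = 0
    · simp [h0]
    · rw [log_div h0 hN.ne']; ring
  rw [h2]
  linarith

lemma Sys.dl_eq (h : Sys G k m) {t : ℕ} (ht : t < k) :
    dl G m t = A G t (fun W => m W * log G.card
      + ∑ Q ∈ G \ W, m (insert Q W) * log (m (insert Q W)) - m W * log (m W)) := by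
  rw [A_sub, A_add]
  have e : A G t (fun W => m W * log G.card) = log G.card := by
    have : A G t (fun W => m W * log G.card) = A G t (fun W => log G.card * m W) :=
      A_congr fun W _ _ => mul_comm _ _
    rw [this, A_mul, h.A_m t ht.le, mul_one]
  rw [e]
  unfold dl H
  rw [A_succ G t]
  ring

lemma Sys.unif_zero (h : Sys G k m) (hG : 0 < G.card) {W : Finset α} (hW : W ⊆ G)
    (hc : W.card < k) {Q : α} (hQ : Q ∈ G \ W) (h0 : m W / G.card = 0) : m (insert Q W) = 0 := by
  have hN : (0 : ℝ) < G.card := by exact_mod_cast hG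
  have h1 : m W = 0 := by
    rcases div_eq_zero_iff.1 h0 with h1 | h1
    · exact h1
    · exact absurd h1 hN.ne'
  have := h.le hW hc hQ
  exact le_antisymm (by linarith) (h.nonneg _)

lemma Sys.dl_nonneg (h : Sys G k m) (hG : 0 < G.card) {t : ℕ} (ht : t < k) : 0 ≤ dl G m t := by
  rw [h.dl_eq ht]
  refine A_nonneg fun W hW hc => ?_
  refine le_trans (sum_nonneg fun Q hQ => ?_) (h.local_unif hG hW (by omega))
  exact psi_nonneg (h.nonneg _) (div_nonneg (h.nonneg _) (by positivity))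
    (h.unif_zero hG hW (by omega) hQ)

/-- Heavy atoms cost entropy. -/
lemma Sys.heavy (h : Sys G k m) (hG : 0 < G.card) {τ : ℝ} (hτ : 0 < τ) {t : ℕ} (ht : t < k) :
    (log (τ * G.card) - 1) * A G t (hv G m τ) ≤ dl G m t := by
  have hN : (0 : ℝ) < G.card := by exact_mod_cast hG
  rw [h.dl_eq ht, ← A_mul]
  refine A_mono fun W hW hc => ?_
  have hc' : W.card < k := by omega
  refine le_trans ?_ (h.local_unif hG hW hc')
  rw [h.hv_eq τ hW hc', mul_sum]
  refine le_trans (sum_le_sum (g := fun Q => psi (m (insert Q W)) (m W / G.card)) fun Q hQ => ?_)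
    (sum_le_sum_of_subset_of_nonneg (filter_subset _ _) fun Q hQ _ => ?_)
  · rw [mem_filter, not_le] at hQ
    rw [mul_comm]
    refine psi_heavy (h.nonneg _) (div_nonneg (h.nonneg _) hN.le)
      (h.unif_zero hG hW hc' hQ.1) (by positivity) ?_
    have : τ * G.card * (m W / G.card) = τ * m W := by field_simp
    rw [this]; exact hQ.2.le
  · exact psi_nonneg (h.nonneg _) (div_nonneg (h.nonneg _) hN.le) (h.unif_zero hG hW hc' hQ)

lemma Sys.dl_succ (h : Sys G k m) {t : ℕ} (ht : t + 2 ≤ k) :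
    dl G m (t + 1) = dl G m t + A G t (J G m) := by
  rw [h.A_J ht]; unfold dl; ring

lemma Sys.dl_mono (h : Sys G k m) {s t : ℕ} (hst : s ≤ t) (ht : t < k) :
    dl G m s ≤ dl G m t := by
  induction t, hst using Nat.le_induction with
  | base => exact le_rfl
  | succ t _ ih =>
    rw [h.dl_succ (by omega)]
    have := h.A_J_nonneg (t := t) (by omega)
    have := ih (by omega)
    linarith

/-- Sum over ordered pairs of distinct points. -/
lemma sum_offdiag (T : Finset α) (w : α → ℝ) (c : ℝ) (hw0 : ∀ P ∈ T, 0 ≤ w P)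
    (hw : ∀ P ∈ T, w P ≤ c) :
    (∑ P ∈ T, w P) ^ 2 - c * ∑ P ∈ T, w P
      ≤ ∑ P ∈ T, ∑ Q ∈ T, if P ≠ Q then w P * w Q else 0 := by
  rw [sq, sum_mul_sum, mul_sum, ← sum_sub_distrib]
  refine sum_le_sum fun P hP => ?_
  have e : ∑ Q ∈ T, w P * w Q
      = ∑ Q ∈ T, ((if P ≠ Q then w P * w Q else 0) + if P = Q then w P * w Q else 0) := by
    refine sum_congr rfl fun Q _ => ?_
    by_cases hPQ : P = Q <;> simp [hPQ]
  rw [e, sum_add_distrib, sum_ite_eq, if_pos hP]
  have := mul_le_mul_of_nonneg_right (hw P hP) (hw0 P hP)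
  linarith

/-- Cauchy-Schwarz over the lines of one direction. -/
lemma sum_lines (T : Finset α) (g : α → ℤ) (w : α → ℝ) (c Lg : ℝ) (hw0 : ∀ P ∈ T, 0 ≤ w P)
    (hw : ∀ P ∈ T, w P ≤ c) (hL : ((T.image g).card : ℝ) ≤ Lg) (hL0 : 0 < Lg) :
    (∑ P ∈ T, w P) ^ 2 / Lg - c * ∑ P ∈ T, w P
      ≤ ∑ P ∈ T, ∑ Q ∈ T, if P ≠ Q ∧ g P = g Q then w P * w Q else 0 := by
  have hmap : ∀ P ∈ T, g P ∈ T.image g := fun P hP => mem_image_of_mem g hP
  have e1 : ∑ P ∈ T, w P = ∑ z ∈ T.image g, ∑ P ∈ T.filter (fun P => g P = z), w P :=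
    (sum_fiberwise_of_maps_to hmap w).symm
  have e2 : (∑ P ∈ T, ∑ Q ∈ T, if P ≠ Q ∧ g P = g Q then w P * w Q else 0)
      = ∑ z ∈ T.image g, ∑ P ∈ T.filter (fun P => g P = z), ∑ Q ∈ T.filter (fun P => g P = z),
          if P ≠ Q then w P * w Q else 0 := by
    rw [← sum_fiberwise_of_maps_to hmap]
    refine sum_congr rfl fun z _ => sum_congr rfl fun P hP => ?_
    have hz : g P = z := (mem_filter.1 hP).2
    rw [sum_filter]
    refine sum_congr rfl fun Q _ => ?_
    by_cases h1 : g Q = z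
    · simp [h1, hz]
    · have : ¬ g P = g Q := fun h => h1 (h ▸ hz)
      simp [h1, this]
  have h3 : ∑ z ∈ T.image g, ((∑ P ∈ T.filter (fun P => g P = z), w P) ^ 2
        - c * ∑ P ∈ T.filter (fun P => g P = z), w P)
      ≤ ∑ z ∈ T.image g, ∑ P ∈ T.filter (fun P => g P = z), ∑ Q ∈ T.filter (fun P => g P = z),
          if P ≠ Q then w P * w Q else 0 :=
    sum_le_sum fun z _ => sum_offdiag _ w c (fun P hP => hw0 P (mem_filter.1 hP).1)
      (fun P hP => hw P (mem_filter.1 hP).1)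
  rw [sum_sub_distrib, ← mul_sum, ← e1] at h3
  have h4 := sq_sum_le_card_mul_sum_sq (s := T.image g)
    (f := fun z => ∑ P ∈ T.filter (fun P => g P = z), w P)
  rw [← e1] at h4
  have h5 : 0 ≤ ∑ z ∈ T.image g, (∑ P ∈ T.filter (fun P => g P = z), w P) ^ 2 :=
    sum_nonneg fun _ _ => sq_nonneg _
  have h6 : (∑ P ∈ T, w P) ^ 2 / Lg
      ≤ ∑ z ∈ T.image g, (∑ P ∈ T.filter (fun P => g P = z), w P) ^ 2 := by
    rw [div_le_iff₀ hL0]
    nlinarith
  rw [e2]
  linarith

lemma Sys.zero_of_zero (h : Sys G k m) {W : Finset α} (hW : W ⊆ G) (hc : W.card < k)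
    (h0 : m W = 0) {Q : α} (hQ : Q ∈ G \ W) : m (insert Q W) = 0 := by
  have := h.le hW hc hQ
  exact le_antisymm (by linarith) (h.nonneg _)

/-- Product weight of light pairs on the lines of one direction. -/
lemma Sys.local_pairs (h : Sys G k m) {τ Lg : ℝ} (hτ : 0 ≤ τ) (g : α → ℤ)
    (hL : ((G.image g).card : ℝ) ≤ Lg) (hL0 : 0 < Lg) {W : Finset α} (hW : W ⊆ G)
    (hc : W.card < k) :
    (3 / 4 * m W - hv G m τ W) / Lg - τ * m W
      ≤ ∑ P ∈ lt G m τ W, ∑ Q ∈ lt G m τ W, if P ≠ Q ∧ g P = g Q then qq m W P Q else 0 := by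
  have hhv := h.hv_nonneg τ hW hc
  rcases (h.nonneg W).eq_or_lt with h0 | h0
  · refine le_trans ?_ (sum_nonneg fun P _ => sum_nonneg fun Q _ => ?_)
    · rw [← h0]
      have : (3 / 4 * 0 - hv G m τ W) / Lg ≤ 0 :=
        div_nonpos_of_nonpos_of_nonneg (by linarith) hL0.le
      linarith
    · split_ifs
      · exact h.qq_nonneg _ _ _
      · exact le_rfl
  · have hsub : lt G m τ W ⊆ G := (lt_subset G m τ W).trans sdiff_subset
    have hL' : (((lt G m τ W).image g).card : ℝ) ≤ Lg :=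
      le_trans (by exact_mod_cast card_le_card (image_subset_image hsub)) hL
    have h1 := sum_lines (lt G m τ W) g (fun P => m (insert P W)) (τ * m W) Lg
      (fun P _ => h.nonneg _) (fun P hP => lt_le hP) hL' hL0
    have e : (∑ P ∈ lt G m τ W, ∑ Q ∈ lt G m τ W, if P ≠ Q ∧ g P = g Q then qq m W P Q else 0)
        = (∑ P ∈ lt G m τ W, ∑ Q ∈ lt G m τ W,
            if P ≠ Q ∧ g P = g Q then m (insert P W) * m (insert Q W) else 0) / m W := by
      rw [sum_div]
      refine sum_congr rfl fun P _ => ?_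
      rw [sum_div]
      refine sum_congr rfl fun Q _ => ?_
      split_ifs
      · rfl
      · simp
    rw [e, le_div_iff₀ h0]
    refine le_trans ?_ h1
    set S := ∑ P ∈ lt G m τ W, m (insert P W) with hS
    have hSv : hv G m τ W = m W - S := rfl
    rw [hSv] at hhv ⊢
    have h2 : (3 / 4 * m W - (m W - S)) * m W ≤ S ^ 2 := by nlinarith [sq_nonneg (S - m W / 2)]
    have h3 : (3 / 4 * m W - (m W - S)) / Lg * m W ≤ S ^ 2 / Lg := by
      rw [div_mul_eq_mul_div]
      exact div_le_div_of_nonneg_right h2 hL0.le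
    have h4 : τ * m W * S ≤ τ * m W * m W :=
      mul_le_mul_of_nonneg_left (by linarith) (by positivity)
    nlinarith

/-- The joint law sees at least half of the product weight, up to mutual information. -/
lemma Sys.local_Y (h : Sys G k m) {τ : ℝ} (g : α → ℤ) {W : Finset α} (hW : W ⊆ G)
    (hc : W.card + 2 ≤ k) :
    (∑ P ∈ lt G m τ W, ∑ Q ∈ lt G m τ W, if P ≠ Q ∧ g P = g Q then qq m W P Q else 0) / 2
      - D G m τ g W ≤ ∑ P ∈ G \ W, Y G m (3 * τ) g P (insert P W) := by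
  have hYn : ∀ P, 0 ≤ Y G m (3 * τ) g P (insert P W) := fun P =>
    sum_nonneg fun _ _ => h.nonneg _
  refine le_trans ?_ (sum_le_sum_of_subset_of_nonneg (lt_subset G m τ W) fun P _ _ => hYn P)
  unfold D
  rw [sum_div, ← sum_sub_distrib]
  refine sum_le_sum fun P hP => ?_
  have hP' := lt_subset G m τ W hP
  rw [sum_div, ← sum_sub_distrib]
  have e : Y G m (3 * τ) g P (insert P W) = ∑ Q ∈ G \ W,
      if P ≠ Q ∧ g P = g Q ∧ m (insert Q (insert P W)) ≤ 3 * τ * m (insert P W)
        then m (insert Q (insert P W)) else 0 := by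
    unfold Y lt
    rw [← sum_filter, filter_filter, sdiff_insert_eq]
    refine sum_congr ?_ fun _ _ => rfl
    ext Q
    simp only [mem_filter, mem_erase]
    constructor
    · rintro ⟨⟨a, b⟩, c, d⟩
      exact ⟨b, a.symm, d.symm, c⟩
    · rintro ⟨b, a, d, c⟩
      exact ⟨⟨a.symm, b⟩, c, d.symm⟩
  rw [e]
  refine le_trans (sum_le_sum fun Q hQ => ?_)
    (sum_le_sum_of_subset_of_nonneg (lt_subset G m τ W) fun Q _ _ => ?_)
  · have hQ' := lt_subset G m τ W hQ
    by_cases h1 : P ≠ Q ∧ g P = g Q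
    · rw [if_pos h1, if_pos h1]
      have hp : pp m W P Q = m (insert Q (insert P W)) := by simp [pp, h1.1]
      have hz := h.qq_zero hW hc hP' hQ'
      by_cases h2 : m (insert Q (insert P W)) ≤ 3 * τ * m (insert P W)
      · rw [if_pos ⟨h1.1, h1.2, h2⟩]
        have := psi_half (h.pp_nonneg W P Q) (h.qq_nonneg W P Q) hz
        linarith
      · rw [if_neg (fun h3 => h2 h3.2.2)]
        rw [not_le] at h2
        have hq := h.qq_nonneg W P Q
        have h3 : qq m W P Q ≤ τ * m (insert P W) := by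
          unfold qq
          rcases (h.nonneg W).eq_or_lt with h0 | h0
          · rw [h.zero_of_zero hW (by omega) h0.symm hP']; simp
          · rw [div_le_iff₀ h0]
            have := mul_le_mul_of_nonneg_left (lt_le hQ) (h.nonneg (insert P W))
            linarith
        have := psi_big (h.pp_nonneg W P Q) hq hz (by rw [hp]; linarith)
        linarith
    · rw [if_neg h1, if_neg h1, if_neg (fun h3 => h1 ⟨h3.1, h3.2.1⟩)]
      simp
  · split_ifs
    · exact h.nonneg _
    · exact le_rfl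

lemma Sys.D_nonneg (h : Sys G k m) (τ : ℝ) (g : α → ℤ) {W : Finset α} (hW : W ⊆ G)
    (hc : W.card + 2 ≤ k) : 0 ≤ D G m τ g W := by
  refine sum_nonneg fun P hP => sum_nonneg fun Q hQ => ?_
  split_ifs
  · exact h.psi_nonneg' hW hc (lt_subset G m τ W hP) (lt_subset G m τ W hQ)
  · exact le_rfl

lemma Dirs.sum_ind (hd : Dirs G m V f L) {P Q : α} (hP : P ∈ G) (hQ : Q ∈ G) {x : ℝ}
    (hx : 0 ≤ x) : (∑ v ∈ V, if P ≠ Q ∧ f v P = f v Q then x else 0) ≤ x := by
  rw [← sum_filter, sum_const, nsmul_eq_mul]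
  have : (V.filter (fun v => P ≠ Q ∧ f v P = f v Q)).card ≤ 1 := by
    rw [card_le_one]
    intro v hv w hw
    rw [mem_filter] at hv hw
    exact hd.uniq v hv.1 w hw.1 P hP Q hQ hv.2.1 hv.2.2 hw.2.2
  have h1 : ((V.filter (fun v => P ≠ Q ∧ f v P = f v Q)).card : ℝ) ≤ 1 := by exact_mod_cast this
  nlinarith

lemma Sys.sum_D (h : Sys G k m) (hd : Dirs G m V f L) (τ : ℝ) {W : Finset α} (hW : W ⊆ G)
    (hc : W.card + 2 ≤ k) : ∑ v ∈ V, D G m τ (f v) W ≤ J G m W := by
  unfold D J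
  rw [sum_comm]
  refine le_trans (sum_le_sum fun P hP => ?_)
    (sum_le_sum_of_subset_of_nonneg (lt_subset G m τ W) fun P hP _ =>
      sum_nonneg fun Q hQ => h.psi_nonneg' hW hc hP hQ)
  have hP' := lt_subset G m τ W hP
  rw [sum_comm]
  refine le_trans (sum_le_sum fun Q hQ => ?_)
    (sum_le_sum_of_subset_of_nonneg (lt_subset G m τ W) fun Q hQ _ => h.psi_nonneg' hW hc hP' hQ)
  have hQ' := lt_subset G m τ W hQ
  exact hd.sum_ind (mem_sdiff.1 hP').1 (mem_sdiff.1 hQ').1 (h.psi_nonneg' hW hc hP' hQ')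

/-- Step (2): the probability of a light pair on a line of direction `g`. -/
lemma Sys.pairs (h : Sys G k m) {τ Lg : ℝ} (hτ : 0 ≤ τ) (g : α → ℤ)
    (hL : ((G.image g).card : ℝ) ≤ Lg) (hL0 : 0 < Lg) (hτL : τ ≤ 1 / (4 * Lg)) {t : ℕ}
    (ht : t + 2 ≤ k) (hh : A G t (hv G m τ) ≤ 1 / 4) :
    1 / (8 * Lg) - A G t (D G m τ g)
      ≤ A G t (fun W => ∑ P ∈ G \ W, Y G m (3 * τ) g P (insert P W)) := by
  have h1 : A G t (fun W => (3 / (8 * Lg) - τ / 2) * m W - 1 / (2 * Lg) * hv G m τ W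
        - D G m τ g W) ≤ A G t (fun W => ∑ P ∈ G \ W, Y G m (3 * τ) g P (insert P W)) := by
    refine A_mono fun W hW hc => ?_
    have a1 := h.local_pairs hτ g hL hL0 hW (by omega)
    have a2 := h.local_Y (τ := τ) g hW (by omega)
    have a3 : (3 / (8 * Lg) - τ / 2) * m W - 1 / (2 * Lg) * hv G m τ W
        = ((3 / 4 * m W - hv G m τ W) / Lg - τ * m W) / 2 := by
      field_simp
      ring
    rw [a3]
    linarith
  rw [A_sub, A_sub, A_mul, A_mul, h.A_m t (by omega)] at h1
  have h2 : 1 / (2 * Lg) * A G t (hv G m τ) ≤ 1 / (2 * Lg) * (1 / 4) :=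
    mul_le_mul_of_nonneg_left hh (by positivity)
  have h3 : 1 / (8 * Lg) = 3 / (8 * Lg) - 1 / (4 * Lg) / 2 - 1 / (2 * Lg) * (1 / 4) := by
    field_simp
    ring
  linarith

end Pool.Agent.MP_67c479_co.H41
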