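import Mathlib

/-! Definitions for the no-three-in-line counting theorems. -/

namespace Pool.Agent.MP_67c479_co.H41

/-- The grid `G_n = {1,…,n}²`. -/
noncomputable def grid (n : ℕ) : Finset (ℤ × ℤ) := Finset.Icc (1 : ℤ) n ×ˢ Finset.Icc (1 : ℤ) n

/-- No three distinct points of `S` lie on a common straight line of the real plane. -/
def NoThree (S : Finset (ℤ × ℤ)) : Prop :=
  ∀ p ∈ S, ∀ q ∈ S, ∀ r ∈ S, p ≠ q → p ≠ r → q ≠ r →
    ¬ Collinear ℝ ({((p.1 : ℝ), (p.2 : ℝ)), ((q.1 : ℝ), (q.2 : ℝ)), ((r.1 : ℝ), (r.2 : ℝ))} :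
      Set (ℝ × ℝ))

/-- The set is mapped onto itself by the quarter turn about the centre of the grid and by the
reflection in the diagonal; these two maps generate the symmetry group of the square. -/
def FullSym (n : ℕ) (S : Finset (ℤ × ℤ)) : Prop :=
  S.image (fun p => ((n : ℤ) + 1 - p.2, p.1)) = S ∧ S.image (fun p => (p.2, p.1)) = S

end Pool.Agent.MP_67c479_co.H41
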