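import Pool.Agent.MP_67c479_co.H41.Grid

/-!
Binomial form of the count and the reduction of fully symmetric configurations to a fundamental
triangle.
-/

namespace Pool.Agent.MP_67c479_co.H41

open Finset Real Filter

open Classical in
/-- The no-three-in-line `k`-subsets of the grid. -/
noncomputable def fam (n k : ℕ) : Finset (Finset (ℤ × ℤ)) :=
  (powersetCard k (grid n)).filter NoThree

lemma mem_fam {n k : ℕ} {S : Finset (ℤ × ℤ)} :
    S ∈ fam n k ↔ S ⊆ grid n ∧ S.card = k ∧ NoThree S := by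
  classical
  simp only [fam, mem_filter, mem_powersetCard, and_assoc]

lemma exists_log_ge (C : ℝ) : ∃ n₀ : ℕ, ∀ n ≥ n₀, C ≤ log (n : ℝ) := by
  have := (tendsto_log_atTop.comp tendsto_natCast_atTop_atTop).eventually_ge_atTop C
  exact eventually_atTop.1 this

lemma pow_le_choose (N k : ℕ) (hN : 0 < N) (hk : 2 * k ≤ N) :
    (N : ℝ) ^ k ≤ k.factorial * N.choose k * exp (2 * (k : ℝ) ^ 2 / N) := by
  have hN0 : (0 : ℝ) < N := by exact_mod_cast hN
  have hk' : 2 * (k : ℝ) ≤ N := by exact_mod_cast hk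
  have h1 : (N - k) ^ k ≤ k.factorial * N.choose k := by
    rw [← Nat.descFactorial_eq_factorial_mul_choose]
    exact le_trans (Nat.pow_le_pow_left (by omega) k) (Nat.pow_sub_le_descFactorial N k)
  have h2 : ((N : ℝ) - k) ^ k ≤ k.factorial * N.choose k := by
    rw [← Nat.cast_sub (by omega)]
    exact_mod_cast h1
  have hk0 : (0 : ℝ) ≤ k := by positivity
  have h3 : (N : ℝ) ≤ (N - k) * exp (2 * k / N) := by
    have a1 := add_one_le_exp (2 * (k : ℝ) / N)
    have a2 : ((N : ℝ) - k) * (2 * k / N + 1) ≤ (N - k) * exp (2 * k / N) :=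
      mul_le_mul_of_nonneg_left a1 (by linarith)
    refine le_trans ?_ a2
    have a3 : ((N : ℝ) - k) * (2 * k / N + 1) = N + k * (N - 2 * k) / N := by
      field_simp; ring
    rw [a3]
    have : 0 ≤ (k : ℝ) * (N - 2 * k) / N := div_nonneg (mul_nonneg hk0 (by linarith)) hN0.le
    linarith
  have h4 := pow_le_pow_left₀ hN0.le h3 k
  rw [mul_pow, ← exp_nat_mul] at h4
  have e : (k : ℝ) * (2 * k / N) = 2 * (k : ℝ) ^ 2 / N := by ring
  rw [e] at h4
  exact h4.trans (mul_le_mul_of_nonneg_right h2 (exp_pos _).le)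

theorem count_choose (n k : ℕ) (hn : 1000000 ≤ log n) (hk : 3 ≤ k) :
    ((fam n k).card : ℝ)
      ≤ (n ^ 2).choose k * exp (-(1 / 655360 * (k : ℝ) ^ 3 * log n / (n : ℝ) ^ 2)) := by
  rcases (fam n k).eq_empty_or_nonempty with h | ⟨S, hS⟩
  · rw [h]; simp only [card_empty, Nat.cast_zero]; positivity
  rw [mem_fam] at hS
  have hk2 : k ≤ 2 * n := hS.2.1 ▸ hS.2.2.card_le hS.1
  have hn4 : 4 ≤ n := by
    by_contra hc
    have h1 : (n : ℝ) ≤ 4 := by
      have : n ≤ 4 := by omega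
      exact_mod_cast this
    have := log_le_self (x := (n : ℝ)) (by positivity)
    linarith
  have hn0 : (0 : ℝ) < n := by
    have : 0 < n := by omega
    exact_mod_cast this
  have h1 := count_pow n k (by linarith) hk (fam n k) fun S hS => mem_fam.1 hS
  have h2 := pow_le_choose (n ^ 2) k (by positivity) (by nlinarith)
  push_cast at h2
  have h3 := h1.trans (mul_le_mul_of_nonneg_right h2 (exp_pos _).le)
  rw [mul_assoc, ← exp_add, mul_comm _ (k.factorial : ℝ), mul_assoc] at h3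
  have h4 := le_of_mul_le_mul_left h3 (by positivity)
  refine h4.trans (mul_le_mul_of_nonneg_left (exp_le_exp.2 ?_) (by positivity))
  have hk3 : (3 : ℝ) ≤ k := by exact_mod_cast hk
  have h5 : 2 * (k : ℝ) ^ 2 ≤ 1 / 655360 * (k : ℝ) ^ 3 * log n := by
    have a1 : (3000000 : ℝ) ≤ k * log n := by nlinarith
    have a2 : 0 ≤ (k : ℝ) ^ 2 := by positivity
    nlinarith
  have h6 := div_le_div_of_nonneg_right h5 (show (0 : ℝ) ≤ (n : ℝ) ^ 2 by positivity)
  have e : 1 / 327680 * (k : ℝ) ^ 3 * log n / (n : ℝ) ^ 2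
      = 2 * (1 / 655360 * (k : ℝ) ^ 3 * log n / (n : ℝ) ^ 2) := by ring
  linarith

/-- Closed fundamental triangle. -/
def fund (n : ℕ) (S : Finset (ℤ × ℤ)) : Finset (ℤ × ℤ) :=
  S.filter (fun p => (n : ℤ) + 1 ≤ 2 * p.2 ∧ p.2 ≤ p.1)

lemma FullSym.swap {n : ℕ} {S : Finset (ℤ × ℤ)} (h : FullSym n S) {x y : ℤ} (hp : (x, y) ∈ S) :
    (y, x) ∈ S := by
  rw [← h.2]
  exact mem_image.2 ⟨(x, y), hp, rfl⟩

lemma FullSym.flip1 {n : ℕ} {S : Finset (ℤ × ℤ)} (h : FullSym n S) {x y : ℤ} (hp : (x, y) ∈ S) :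
    ((n : ℤ) + 1 - x, y) ∈ S := by
  have := h.swap hp
  rw [← h.1]
  exact mem_image.2 ⟨(y, x), this, rfl⟩

lemma FullSym.flip2 {n : ℕ} {S : Finset (ℤ × ℤ)} (h : FullSym n S) {x y : ℤ} (hp : (x, y) ∈ S) :
    (x, (n : ℤ) + 1 - y) ∈ S := h.swap (h.flip1 (h.swap hp))

/-- The eight images of a point. -/
def img (n : ℕ) (b : Bool × Bool × Bool) (p : ℤ × ℤ) : ℤ × ℤ :=
  if b.2.2 then (if b.2.1 then (n : ℤ) + 1 - p.2 else p.2, if b.1 then (n : ℤ) + 1 - p.1 else p.1)
  else (if b.1 then (n : ℤ) + 1 - p.1 else p.1, if b.2.1 then (n : ℤ) + 1 - p.2 else p.2)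

lemma FullSym.img_mem {n : ℕ} {S : Finset (ℤ × ℤ)} (h : FullSym n S) (b : Bool × Bool × Bool)
    {p : ℤ × ℤ} (hp : p ∈ S) : img n b p ∈ S := by
  obtain ⟨x, y⟩ := p
  obtain ⟨b1, b2, b3⟩ := b
  have h1 := h.flip1 hp
  have h2 := h.flip2 hp
  have h3 := h.flip2 h1
  cases b1 <;> cases b2 <;> cases b3 <;> simp only [img] <;>
    first
      | exact hp | exact h1 | exact h2 | exact h3
      | exact h.swap hp | exact h.swap h1 | exact h.swap h2 | exact h.swap h3

lemma exists_fund (n : ℕ) (p : ℤ × ℤ) : ∃ b b' : Bool × Bool × Bool,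
    ((n : ℤ) + 1 ≤ 2 * (img n b p).2 ∧ (img n b p).2 ≤ (img n b p).1)
      ∧ img n b' (img n b p) = p := by
  obtain ⟨x, y⟩ := p
  have key : ∀ b1 b2 : Bool,
      (n : ℤ) + 1 ≤ 2 * (if b1 then (n : ℤ) + 1 - x else x) →
      (n : ℤ) + 1 ≤ 2 * (if b2 then (n : ℤ) + 1 - y else y) →
      ∃ b b' : Bool × Bool × Bool,
        ((n : ℤ) + 1 ≤ 2 * (img n b (x, y)).2 ∧ (img n b (x, y)).2 ≤ (img n b (x, y)).1)
          ∧ img n b' (img n b (x, y)) = (x, y) := by
    intro b1 b2 h1 h2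
    rcases le_total (if b1 then (n : ℤ) + 1 - x else x) (if b2 then (n : ℤ) + 1 - y else y)
      with h | h
    · refine ⟨(b1, b2, true), (b2, b1, true), ⟨h1, h⟩, ?_⟩
      cases b1 <;> cases b2 <;> simp [img]
    · refine ⟨(b1, b2, false), (b1, b2, false), ⟨h2, h⟩, ?_⟩
      cases b1 <;> cases b2 <;> simp [img]
  rcases le_total ((n : ℤ) + 1) (2 * x) with hx | hx <;>
    rcases le_total ((n : ℤ) + 1) (2 * y) with hy | hy
  · exact key false false hx hy
  · exact key false true hx (by simp only [if_true]; omega)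
  · exact key true false (by simp only [if_true]; omega) hy
  · exact key true true (by simp only [if_true]; omega) (by simp only [if_true]; omega)

lemma FullSym.subset_image {n : ℕ} {S : Finset (ℤ × ℤ)} (h : FullSym n S) :
    S ⊆ ((univ : Finset (Bool × Bool × Bool)) ×ˢ fund n S).image (fun x => img n x.1 x.2) := by
  intro p hp
  obtain ⟨b, b', h1, h2⟩ := exists_fund n p
  exact mem_image.2 ⟨(b', img n b p),
    mem_product.2 ⟨mem_univ _, mem_filter.2 ⟨h.img_mem b hp, h1⟩⟩, h2⟩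

lemma FullSym.eq_of_fund {n : ℕ} {S S' : Finset (ℤ × ℤ)} (h : FullSym n S) (h' : FullSym n S')
    (e : fund n S = fund n S') : S = S' := by
  have key : ∀ {S S' : Finset (ℤ × ℤ)}, FullSym n S → FullSym n S' → fund n S = fund n S' →
      S ⊆ S' := by
    intro S S' h h' e p hp
    have := h.subset_image hp
    rw [e] at this
    obtain ⟨x, hx, rfl⟩ := mem_image.1 this
    exact h'.img_mem _ (mem_filter.1 (mem_product.1 hx).2).1
  exact Subset.antisymm (key h h' e) (key h' h e.symm)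

lemma FullSym.card_le {n : ℕ} {S : Finset (ℤ × ℤ)} (h : FullSym n S) :
    S.card ≤ 8 * (fund n S).card := by
  refine (card_le_card h.subset_image).trans (card_image_le.trans ?_)
  rw [card_product]
  simp

lemma FullSym.le_card {n : ℕ} {S : Finset (ℤ × ℤ)} (h : FullSym n S) (h3 : NoThree S) :
    8 * (fund n S).card ≤ S.card + 32 := by
  set I := S.filter (fun p => (n : ℤ) + 1 < 2 * p.2 ∧ p.2 < p.1) with hI
  have h1 : ((univ : Finset (Bool × Bool × Bool)) ×ˢ I).card ≤ S.card := by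
    refine card_le_card_of_injOn (fun x => img n x.1 x.2) (fun x hx => ?_) ?_
    · exact h.img_mem _ (mem_filter.1 (mem_product.1 hx).2).1
    · rintro ⟨⟨b1, b2, b3⟩, x, y⟩ hx ⟨⟨c1, c2, c3⟩, u, w⟩ hu e
      have a1 := (mem_filter.1 (mem_product.1 hx).2).2
      have a2 := (mem_filter.1 (mem_product.1 hu).2).2
      simp only at a1 a2
      cases b1 <;> cases b2 <;> cases b3 <;> cases c1 <;> cases c2 <;> cases c3 <;>
        simp only [img, Prod.mk.injEq, Bool.false_eq_true, Bool.true_eq_false, if_false, if_true,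
          true_and, false_and, and_false, and_true, and_self] at e ⊢ <;> omega
  rw [card_product] at h1
  have h1' : 8 * I.card ≤ S.card := by simpa using h1
  have h2 : fund n S ⊆ I ∪ S.filter (fun P => 0 * P.1 - 2 * P.2 = -((n : ℤ) + 1))
      ∪ S.filter (fun P => 1 * P.1 - 1 * P.2 = 0) := by
    intro p hp
    have := mem_filter.1 hp
    simp only [hI, mem_union, mem_filter, this.1, true_and]
    omega
  have h4 := (card_le_card h2).trans ((card_union_le _ _).trans
    (Nat.add_le_add_right (card_union_le _ _) _))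
  have h5 := h3.line 2 0 (-((n : ℤ) + 1)) (by norm_num)
  have h6 := h3.line 1 1 0 one_ne_zero
  omega

lemma fam_le (n k : ℕ) (hn : 24 ≤ log n) (hn12 : 12 ≤ n) (h1 : n ≤ 4 * k) (h2 : 4 * k ≤ n + 16) :
    ((fam n k).card : ℝ)
      ≤ exp ((n / 4 + 4) * (log n + 3) - 1 / 20971520 * (n * log n)) := by
  have hn0 : (0 : ℝ) < n := by
    have : 0 < n := by omega
    exact_mod_cast this
  have hk0 : (0 : ℝ) < k := by
    have : 0 < k := by omega
    exact_mod_cast this
  have h1' : (n : ℝ) ≤ 4 * k := by exact_mod_cast h1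
  have h2' : 4 * (k : ℝ) ≤ n + 16 := by exact_mod_cast h2
  have a1 := count_pow n k hn (by omega) (fam n k) fun S hS => mem_fam.1 hS
  have a2 := pow_div_factorial_le_exp (k : ℝ) hk0.le k
  have hf : (0 : ℝ) < k.factorial := by positivity
  rw [div_le_iff₀ hf] at a2
  have a3 : ((n : ℝ) ^ 2) ^ k ≤ (4 * n) ^ k * (k : ℝ) ^ k := by
    rw [← mul_pow]
    exact pow_le_pow_left₀ (by positivity) (by nlinarith) k
  have a4 : ((n : ℝ) ^ 2) ^ k ≤ (4 * n) ^ k * (exp k * k.factorial) :=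
    a3.trans (mul_le_mul_of_nonneg_left a2 (by positivity))
  have a5 := a1.trans (mul_le_mul_of_nonneg_right a4 (exp_pos _).le)
  have a6 : ((fam n k).card : ℝ) ≤ (4 * n) ^ k * exp k
      * exp (-(1 / 327680 * (k : ℝ) ^ 3 * log n / (n : ℝ) ^ 2)) := by
    refine le_of_mul_le_mul_right (a5.trans (le_of_eq ?_)) hf
    ring
  refine a6.trans ?_
  rw [← exp_log (x := (4 * (n : ℝ)) ^ k) (by positivity), ← exp_add, ← exp_add, exp_le_exp,
    log_pow, log_mul (by norm_num) hn0.ne']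
  have l4 : log (4 : ℝ) ≤ 2 := by
    have e : (4 : ℝ) = 2 ^ 2 := by norm_num
    rw [e, log_pow]
    have := log_two_lt_d9
    push_cast
    linarith
  have b1 : (k : ℝ) * (log 4 + log n) + k ≤ (n / 4 + 4) * (log n + 3) := by
    have c1 : (k : ℝ) * (log 4 + log n) + k ≤ k * (log n + 3) := by nlinarith
    exact c1.trans (mul_le_mul_of_nonneg_right (by linarith) (by linarith))
  have b2 : 1 / 20971520 * (n * log n) ≤ 1 / 327680 * (k : ℝ) ^ 3 * log n / (n : ℝ) ^ 2 := by
    rw [le_div_iff₀ (by positivity)]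
    have c1 : (n : ℝ) ^ 3 ≤ (4 * k) ^ 3 := pow_le_pow_left₀ hn0.le h1' 3
    have c2 : (n : ℝ) ^ 3 * log n ≤ (4 * k) ^ 3 * log n :=
      mul_le_mul_of_nonneg_right c1 (by linarith)
    nlinarith
  linarith

theorem count_sym (n : ℕ) (hn : 1000000000 ≤ log n) (C : Finset (Finset (ℤ × ℤ)))
    (hC : ∀ S ∈ C, S ⊆ grid n ∧ S.card = 2 * n ∧ NoThree S ∧ FullSym n S) :
    (C.card : ℝ) ≤ (n : ℝ) ^ ((1 / 4 - 1 / 41943040) * (n : ℝ)) := by
  have hnl := log_le_self (x := (n : ℝ)) (by positivity)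
  have hn12 : 12 ≤ n := by
    have : (12 : ℝ) ≤ n := by linarith
    exact_mod_cast this
  have hn0 : (0 : ℝ) < n := by linarith
  set K := Icc ((n + 3) / 4) (n / 4 + 4) with hK
  have h1 : C.card ≤ (K.biUnion (fam n)).card := by
    refine card_le_card_of_injOn (fund n) (fun S hS => ?_) fun S hS S' hS' e =>
      (hC S hS).2.2.2.eq_of_fund (hC S' hS').2.2.2 e
    obtain ⟨a1, a2, a3, a4⟩ := hC S hS
    have b1 := a4.card_le
    have b2 := a4.le_card a3
    refine mem_coe.2 (mem_biUnion.2 ⟨(fund n S).card, mem_Icc.2 (by omega), mem_fam.2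
      ⟨(filter_subset _ _).trans a1, rfl, a3.mono (filter_subset _ _)⟩⟩)
  have h2 : (C.card : ℝ) ≤ ∑ k ∈ K, ((fam n k).card : ℝ) := by
    exact_mod_cast h1.trans card_biUnion_le
  have h3 : ∑ k ∈ K, ((fam n k).card : ℝ)
      ≤ ∑ _k ∈ K, exp ((n / 4 + 4) * (log n + 3) - 1 / 20971520 * (n * log n)) := by
    refine sum_le_sum fun k hk => ?_
    rw [mem_Icc] at hk
    exact fam_le n k (by linarith) hn12 (by omega) (by omega)
  rw [sum_const, nsmul_eq_mul] at h3
  have h4 : (K.card : ℝ) ≤ exp 4 := by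
    have : K.card ≤ 5 := by rw [hK, Nat.card_Icc]; omega
    have h5 : (K.card : ℝ) ≤ 5 := by exact_mod_cast this
    have := add_one_le_exp (4 : ℝ)
    linarith
  refine h2.trans (h3.trans ((mul_le_mul_of_nonneg_right h4 (exp_pos _).le).trans ?_))
  rw [← exp_add, rpow_def_of_pos hn0, exp_le_exp]
  have h6 : (n : ℝ) * 1000000000 ≤ n * log n := mul_le_mul_of_nonneg_left hn hn0.le
  nlinarith

end Pool.Agent.MP_67c479_co.H41
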