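import Pool.Agent.MP_67c479_co.H41.Triple
import Pool.Agent.MP_67c479_co.H41.Defs

/-!
The counting theorem for no-three-in-line subsets of the grid.
-/

namespace Pool.Agent.MP_67c479_co.H41

open Finset Real

set_option linter.unusedSectionVars false

/-- The weight system of a uniformly random member of a family of `k`-sets in random order. -/
lemma exists_sys {α : Type*} [DecidableEq α] (G : Finset α) (k : ℕ) (F : Finset (Finset α))
    (hF : F ⊆ powersetCard k G) (hne : F.Nonempty) :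
    ∃ m, Sys G k m ∧ H G m k = log (F.card * k.factorial) ∧
      ∀ W, 0 < m W → ∃ S ∈ F, W ⊆ S := by
  have hc : (0 : ℝ) < F.card := by exact_mod_cast card_pos.2 hne
  have hZ : (0 : ℝ) < F.card * k.factorial := by positivity
  set m : Finset α → ℝ := fun W =>
    ((F.filter (fun S => W ⊆ S)).card : ℝ) * (k - W.card).factorial / (F.card * k.factorial)
    with hm
  have hsys : Sys G k m := by
    refine ⟨fun W => by simp only [hm]; positivity, fun W hW hk => ?_, ?_⟩
    · have e1 : ∑ Q ∈ G \ W, m (insert Q W) = (∑ Q ∈ G \ W,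
          ((F.filter (fun S => insert Q W ⊆ S)).card : ℝ)) * (k - (W.card + 1)).factorial
            / (F.card * k.factorial) := by
        rw [sum_mul, sum_div]
        refine sum_congr rfl fun Q hQ => ?_
        simp only [hm]
        rw [card_insert_of_notMem (mem_sdiff.1 hQ).2]
      have e2 : ∑ Q ∈ G \ W, (F.filter (fun S => insert Q W ⊆ S)).card
          = (k - W.card) * (F.filter (fun S => W ⊆ S)).card := by
        simp only [card_filter]
        rw [sum_comm, mul_sum]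
        refine sum_congr rfl fun S hS => ?_
        have hS' := mem_powersetCard.1 (hF hS)
        by_cases hWS : W ⊆ S
        · rw [if_pos hWS, mul_one, ← card_filter]
          have : (G \ W).filter (fun Q => insert Q W ⊆ S) = S \ W := by
            ext Q
            simp only [mem_filter, mem_sdiff, insert_subset_iff]
            constructor
            · rintro ⟨⟨_, b⟩, c, _⟩; exact ⟨c, b⟩
            · rintro ⟨a, b⟩; exact ⟨⟨hS'.1 a, b⟩, a, hWS⟩
          rw [this, card_sdiff_of_subset hWS, hS'.2]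
        · rw [if_neg hWS, mul_zero]
          exact sum_eq_zero fun Q _ => if_neg fun h => hWS ((subset_insert _ _).trans h)
      have e3 : (k - W.card).factorial = (k - W.card) * (k - (W.card + 1)).factorial := by
        have : k - W.card = (k - (W.card + 1)) + 1 := by omega
        rw [this, Nat.factorial_succ]
      rw [e1, ← Nat.cast_sum, e2]
      simp only [hm]
      rw [e3]
      push_cast
      ring
    · simp only [hm]
      have : F.filter (fun S => ∅ ⊆ S) = F := filter_true_of_mem fun S _ => empty_subset S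
      rw [this, card_empty, Nat.sub_zero]
      exact div_self hZ.ne'
  refine ⟨m, hsys, ?_, fun W hW => ?_⟩
  · have e : A G k (fun W => m W * log (m W))
        = A G k (fun W => (- log (F.card * k.factorial)) * m W) := by
      refine A_congr fun W _ hWc => ?_
      have h1 : (F.filter (fun S => W ⊆ S)).card ≤ 1 := by
        rw [card_le_one]
        intro S hS S' hS'
        rw [mem_filter] at hS hS'
        have a1 := (mem_powersetCard.1 (hF hS.1)).2
        have a2 := (mem_powersetCard.1 (hF hS'.1)).2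
        rw [← eq_of_subset_of_card_le hS.2 (by omega), ← eq_of_subset_of_card_le hS'.2 (by omega)]
      rcases Nat.le_one_iff_eq_zero_or_eq_one.1 h1 with h2 | h2
      · have : m W = 0 := by simp only [hm]; rw [h2]; simp
        rw [this]; simp
      · have : m W = ((F.card : ℝ) * k.factorial)⁻¹ := by
          simp only [hm]; rw [h2, hWc, Nat.sub_self]; simp
        rw [this, log_inv]; ring
    unfold H
    rw [e, A_mul, hsys.A_m k le_rfl]
    ring
  · by_contra hno
    have : F.filter (fun S => W ⊆ S) = ∅ :=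
      filter_eq_empty_iff.2 fun S hS hWS => hno ⟨S, hS, hWS⟩
    simp only [hm] at hW
    rw [this] at hW
    simp at hW

lemma NoThree.mono {S W : Finset (ℤ × ℤ)} (h : NoThree S) (hW : W ⊆ S) : NoThree W :=
  fun p hp q hq r hr => h p (hW hp) q (hW hq) r (hW hr)

lemma NoThree.line {S : Finset (ℤ × ℤ)} (h : NoThree S) (a b z : ℤ) (ha : a ≠ 0) :
    (S.filter (fun P => b * P.1 - a * P.2 = z)).card ≤ 2 := by
  by_contra hc
  rw [not_le, two_lt_card] at hc
  obtain ⟨p, hp, q, hq, r, hr, h1, h2, h3⟩ := hc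
  rw [mem_filter] at hp hq hr
  refine h p hp.1 q hq.1 r hr.1 h1 h2 h3 ?_
  rw [collinear_iff_of_mem (p₀ := ((p.1 : ℝ), (p.2 : ℝ))) (by simp)]
  have ha' : (a : ℝ) ≠ 0 := by exact_mod_cast ha
  have key : ∀ x : ℤ × ℤ, b * x.1 - a * x.2 = z → ∃ t : ℝ,
      ((x.1 : ℝ), (x.2 : ℝ)) = t • ((a : ℝ), (b : ℝ)) +ᵥ ((p.1 : ℝ), (p.2 : ℝ)) := by
    intro x hx
    have e : (b : ℝ) * x.1 - a * x.2 = b * p.1 - a * p.2 := by
      exact_mod_cast hx.trans hp.2.symm
    refine ⟨(x.1 - p.1) / a, Prod.ext ?_ ?_⟩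
    · simp only [vadd_eq_add, Prod.fst_add, Prod.smul_fst, smul_eq_mul]
      field_simp
      ring
    · simp only [vadd_eq_add, Prod.snd_add, Prod.smul_snd, smul_eq_mul]
      field_simp
      linarith
  refine ⟨((a : ℝ), (b : ℝ)), fun x hx => ?_⟩
  simp only [Set.mem_insert_iff, Set.mem_singleton_iff] at hx
  rcases hx with rfl | rfl | rfl
  · exact key p hp.2
  · exact key q hq.2
  · exact key r hr.2

lemma mem_grid {n : ℕ} {p : ℤ × ℤ} :
    p ∈ grid n ↔ (1 ≤ p.1 ∧ p.1 ≤ n) ∧ (1 ≤ p.2 ∧ p.2 ≤ n) := by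
  simp [grid, mem_product]

lemma card_grid (n : ℕ) : (grid n).card = n ^ 2 := by
  simp [grid, sq]

lemma NoThree.card_le {n : ℕ} {S : Finset (ℤ × ℤ)} (h : NoThree S) (hS : S ⊆ grid n) :
    S.card ≤ 2 * n := by
  have h1 := card_le_mul_card_image_of_maps_to (f := fun P : ℤ × ℤ => P.2) (s := S)
    (t := Icc (1 : ℤ) n) (fun P hP => mem_Icc.2 (mem_grid.1 (hS hP)).2) 2 (fun y _ => by
      have := h.line 1 0 (-y) one_ne_zero
      refine le_trans (card_le_card fun P hP => ?_) this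
      rw [mem_filter] at hP ⊢
      exact ⟨hP.1, by rw [hP.2]; ring⟩)
  simpa using h1

/-- Coprime directions of height at most `M`. -/
def dirs (M : ℕ) : Finset (ℕ × ℕ) := (Icc 1 M ×ˢ Icc 1 M).filter (fun v => Nat.Coprime v.1 v.2)

lemma mem_dirs {M : ℕ} {v : ℕ × ℕ} :
    v ∈ dirs M ↔ ((1 ≤ v.1 ∧ v.1 ≤ M) ∧ (1 ≤ v.2 ∧ v.2 ≤ M)) ∧ Nat.Coprime v.1 v.2 := by
  simp [dirs, mem_product]

lemma dirs_grid (n M : ℕ) (m : Finset (ℤ × ℤ) → ℝ)
    (hm : ∀ W, 0 < m W → NoThree W) :
    Dirs (grid n) m (dirs M) (fun v P => (v.2 : ℤ) * P.1 - (v.1 : ℤ) * P.2)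
      (fun v => ((v.1 : ℝ) + v.2) * n) := by
  refine ⟨fun v hv w hw P _ Q _ hPQ e1 e2 => ?_, fun W _ hW v hv z => ?_, fun v hv => ?_⟩
  · rw [mem_dirs] at hv hw
    have a1 : (1 : ℤ) ≤ v.1 := by exact_mod_cast hv.1.1.1
    have hdx : P.1 - Q.1 ≠ 0 := by
      intro h0
      have hx : P.1 = Q.1 := by linarith
      rw [hx] at e1
      have : (v.1 : ℤ) * (P.2 - Q.2) = 0 := by linarith
      rcases mul_eq_zero.1 this with h | h
      · omega
      · exact hPQ (Prod.ext hx (by linarith))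
    have e3 : ((w.1 : ℤ) * v.2 - v.1 * w.2) * (P.1 - Q.1) = 0 := by
      linear_combination (w.1 : ℤ) * e1 - (v.1 : ℤ) * e2
    have e4 : w.1 * v.2 = v.1 * w.2 := by
      rcases mul_eq_zero.1 e3 with h | h
      · exact_mod_cast sub_eq_zero.1 h
      · exact absurd h hdx
    have d1 : v.1 ∣ w.1 := hv.2.dvd_of_dvd_mul_right ⟨w.2, e4⟩
    have d2 : w.1 ∣ v.1 := hw.2.dvd_of_dvd_mul_right ⟨v.2, e4.symm⟩
    have e5 : v.1 = w.1 := Nat.dvd_antisymm d1 d2
    rw [← e5] at e4
    exact Prod.ext e5 (Nat.eq_of_mul_eq_mul_left hv.1.1.1 e4)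
  · rw [mem_dirs] at hv
    refine (hm W hW).line v.1 v.2 z ?_
    have := hv.1.1.1
    omega
  · rw [mem_dirs] at hv
    have a1 : (1 : ℤ) ≤ v.1 := by exact_mod_cast hv.1.1.1
    have a2 : (1 : ℤ) ≤ v.2 := by exact_mod_cast hv.1.2.1
    have hsub : (grid n).image (fun P : ℤ × ℤ => (v.2 : ℤ) * P.1 - (v.1 : ℤ) * P.2)
        ⊆ Ioc (-((v.1 : ℤ) * n)) ((v.2 : ℤ) * n) := by
      intro z hz
      obtain ⟨P, hP, rfl⟩ := mem_image.1 hz
      rw [mem_grid] at hP
      rw [mem_Ioc]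
      constructor <;> nlinarith [hP.1.1, hP.1.2, hP.2.1, hP.2.2]
    have h1 := card_le_card hsub
    rw [Int.card_Ioc] at h1
    have h2 : ((v.2 : ℤ) * n - -((v.1 : ℤ) * n)).toNat = (v.1 + v.2) * n := by
      have : (v.2 : ℤ) * n - -((v.1 : ℤ) * n) = (((v.1 + v.2) * n : ℕ) : ℤ) := by push_cast; ring
      rw [this, Int.toNat_natCast]
    rw [h2] at h1
    exact_mod_cast h1

lemma sum_dirs (M : ℕ) :
    log (M + 1) / 8 ≤ ∑ v ∈ dirs M, (1 / ((v.1 : ℝ) + v.2)) ^ 2 := by
  set g : ℕ × ℕ → ℝ := fun v => (1 / ((v.1 : ℝ) + v.2)) ^ 2 with hg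
  have g0 : ∀ v, 0 ≤ g v := fun v => sq_nonneg _
  have h1 : log (M + 1) / 4 ≤ ∑ v ∈ Icc 1 M ×ˢ Icc 1 M, g v := by
    have a1 : log (M + 1) ≤ ∑ a ∈ Icc 1 M, (a : ℝ)⁻¹ := by
      have := log_add_one_le_harmonic M
      rw [harmonic_eq_sum_Icc] at this
      push_cast at this
      exact this
    rw [sum_product]
    refine le_trans (div_le_div_of_nonneg_right a1 (by norm_num)) ?_
    rw [sum_div]
    refine sum_le_sum fun a ha => ?_
    rw [mem_Icc] at ha
    have a0 : (0 : ℝ) < a := by exact_mod_cast ha.1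
    refine le_trans ?_ (sum_le_sum_of_subset_of_nonneg (Icc_subset_Icc_right ha.2)
      fun b _ _ => g0 (a, b))
    have a2 : ∑ _b ∈ Icc 1 a, (1 / (2 * (a : ℝ))) ^ 2 ≤ ∑ b ∈ Icc 1 a, g (a, b) := by
      refine sum_le_sum fun b hb => ?_
      rw [mem_Icc] at hb
      have b1 : (b : ℝ) ≤ a := by exact_mod_cast hb.2
      have b0 : (0 : ℝ) ≤ b := by positivity
      simp only [hg]
      refine pow_le_pow_left₀ (by positivity) ?_ 2
      exact one_div_le_one_div_of_le (by positivity) (by linarith)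
    refine le_trans (le_of_eq ?_) a2
    rw [sum_const, nsmul_eq_mul, Nat.card_Icc, Nat.add_sub_cancel]
    field_simp
    ring
  have h2 : Icc 1 M ×ˢ Icc 1 M
      ⊆ (Ioo 0 (M + 1) ×ˢ dirs M).image (fun x : ℕ × ℕ × ℕ => (x.1 * x.2.1, x.1 * x.2.2)) := by
    rintro ⟨a, b⟩ hab
    simp only [mem_product, mem_Icc] at hab
    have gp : 0 < Nat.gcd a b := Nat.gcd_pos_of_pos_left _ hab.1.1
    have ga : Nat.gcd a b ≤ a := Nat.le_of_dvd hab.1.1 (Nat.gcd_dvd_left _ _)
    have gb : Nat.gcd a b ≤ b := Nat.le_of_dvd hab.2.1 (Nat.gcd_dvd_right _ _)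
    refine mem_image.2 ⟨(Nat.gcd a b, a / Nat.gcd a b, b / Nat.gcd a b), ?_, ?_⟩
    · rw [mem_product, mem_Ioo, mem_dirs]
      refine ⟨⟨gp, by simp only; omega⟩, ⟨⟨Nat.div_pos ga gp, ?_⟩, Nat.div_pos gb gp, ?_⟩,
        Nat.coprime_div_gcd_div_gcd gp⟩
      · exact (Nat.div_le_self _ _).trans hab.1.2
      · exact (Nat.div_le_self _ _).trans hab.2.2
    · simp only
      rw [Nat.mul_div_cancel' (Nat.gcd_dvd_left _ _), Nat.mul_div_cancel' (Nat.gcd_dvd_right _ _)]
  have h3 := sum_le_sum_of_subset_of_nonneg h2 (f := g) fun v _ _ => g0 v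
  have h4 := sum_image_le_of_nonneg (s := Ioo 0 (M + 1) ×ˢ dirs M)
    (g := fun x : ℕ × ℕ × ℕ => (x.1 * x.2.1, x.1 * x.2.2)) (f := g) fun v _ => g0 v
  have h5 : ∑ x ∈ Ioo 0 (M + 1) ×ˢ dirs M, g (x.1 * x.2.1, x.1 * x.2.2)
      = (∑ d ∈ Ioo 0 (M + 1), ((d : ℝ) ^ 2)⁻¹) * ∑ v ∈ dirs M, g v := by
    rw [sum_product, sum_mul_sum]
    refine sum_congr rfl fun d _ => sum_congr rfl fun v _ => ?_
    simp only [hg]
    push_cast
    rw [← mul_add, one_div, one_div, mul_inv, mul_pow, inv_pow]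
  have h6 : ∑ d ∈ Ioo 0 (M + 1), ((d : ℝ) ^ 2)⁻¹ ≤ 2 := by
    simpa using sum_Ioo_inv_sq_le (α := ℝ) 0 (M + 1)
  have h7 : 0 ≤ ∑ v ∈ dirs M, g v := sum_nonneg fun v _ => g0 v
  have h8 := mul_le_mul_of_nonneg_right h6 h7
  linarith

/-- The count, with `n^{2k}/k!` in place of the binomial coefficient. -/
theorem count_pow (n k : ℕ) (hn : 24 ≤ log n) (hk : 3 ≤ k) (F : Finset (Finset (ℤ × ℤ)))
    (hF : ∀ S ∈ F, S ⊆ grid n ∧ S.card = k ∧ NoThree S) :
    (F.card : ℝ) * k.factorial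
      ≤ ((n : ℝ) ^ 2) ^ k * exp (-(1 / 327680 * (k : ℝ) ^ 3 * log n / (n : ℝ) ^ 2)) := by
  rcases F.eq_empty_or_nonempty with rfl | hne
  · simp only [card_empty, Nat.cast_zero, zero_mul]; positivity
  have hn1 : 1 ≤ n := by
    rcases Nat.eq_zero_or_pos n with rfl | h
    · norm_num at hn
    · exact h
  have hn0 : (0 : ℝ) < n := by exact_mod_cast hn1
  have hk2 : k ≤ 2 * n := by
    obtain ⟨S, hS⟩ := hne
    have := hF S hS
    rw [← this.2.1]
    exact this.2.2.card_le this.1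
  have hk2' : (k : ℝ) ≤ 2 * n := by exact_mod_cast hk2
  have hk3 : (3 : ℝ) ≤ k := by exact_mod_cast hk
  obtain ⟨m, hsys, hH, hsupp⟩ := exists_sys (grid n) k F
    (fun S hS => mem_powersetCard.2 ⟨(hF S hS).1, (hF S hS).2.1⟩) hne
  set M := Nat.sqrt n with hM
  have hM1 : 1 ≤ M := Nat.sqrt_pos.2 hn1
  have hM0 : (0 : ℝ) < M := by exact_mod_cast hM1
  have hMa : (M : ℝ) ^ 2 ≤ n := by exact_mod_cast Nat.sqrt_le' n
  have hMb : (n : ℝ) ≤ ((M : ℝ) + 1) ^ 2 := by exact_mod_cast (Nat.lt_succ_sqrt' n).le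
  have hd := dirs_grid n M m fun W hW => by
    obtain ⟨S, hS, hWS⟩ := hsupp W hW
    exact (hF S hS).2.2.mono hWS
  have hG : ((grid n).card : ℝ) = (n : ℝ) ^ 2 := by rw [card_grid]; push_cast; rfl
  have hlogM : 2 * log M ≤ log n := by
    have := log_le_log (by positivity) hMa
    rwa [log_pow, Nat.cast_ofNat] at this
  have hlogM' : log n ≤ 2 * log (M + 1) := by
    have := log_le_log hn0 hMb
    rwa [log_pow, Nat.cast_ofNat] at this
  have h96 : log (96 : ℝ) ≤ 5 := by
    have e : (96 : ℝ) ≤ 2 ^ 7 := by norm_num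
    have := log_le_log (by norm_num) e
    rw [log_pow] at this
    have h2 := log_two_lt_d9
    push_cast at this
    linarith
  have hΛ : log n / 4 ≤ log (1 / (96 * M * n) * ((grid n).card : ℝ)) - 1 := by
    have e : 1 / (96 * (M : ℝ) * n) * ((grid n).card : ℝ) = n / (96 * M) := by
      rw [hG]; field_simp
    rw [e, log_div hn0.ne' (by positivity), log_mul (by norm_num) hM0.ne']
    linarith
  set T := k / 2 with hT
  have hT1 : (k : ℝ) ≤ 2 * T + 1 := by
    have : k ≤ 2 * T + 1 := by omega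
    exact_mod_cast this
  have hT2 : (k : ℝ) ≤ 4 * ((k : ℝ) - T - 1) := by
    have : 4 * T + 4 ≤ 3 * k := by omega
    have : (4 : ℝ) * T + 4 ≤ 3 * k := by exact_mod_cast this
    linarith
  have hT3 : (T : ℝ) ≤ k := by
    have : T ≤ k := by omega
    exact_mod_cast this
  have hT0 : (1 : ℝ) ≤ T := by
    have : 1 ≤ T := by omega
    exact_mod_cast this
  have hv : ∀ v ∈ dirs M, (2 : ℝ) ≤ (v.1 : ℝ) + v.2 ∧ (v.1 : ℝ) + v.2 ≤ 2 * M := by
    intro v hv
    rw [mem_dirs] at hv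
    have a1 : 2 ≤ v.1 + v.2 := by omega
    have a2 : v.1 + v.2 ≤ 2 * M := by omega
    exact ⟨by exact_mod_cast a1, by exact_mod_cast a2⟩
  have hB : log n / (1024 * (n : ℝ) ^ 2)
      ≤ ∑ v ∈ dirs M, (1 / (8 * (((v.1 : ℝ) + v.2) * n))) ^ 2 := by
    have e : ∑ v ∈ dirs M, (1 / (8 * (((v.1 : ℝ) + v.2) * n))) ^ 2
        = (∑ v ∈ dirs M, (1 / ((v.1 : ℝ) + v.2)) ^ 2) / (64 * (n : ℝ) ^ 2) := by
      rw [sum_div]
      refine sum_congr rfl fun v hv' => ?_
      have := (hv v hv').1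
      field_simp
      ring
    rw [e]
    have := sum_dirs M
    have e2 : log n / (1024 * (n : ℝ) ^ 2) = (log n / 16) / (64 * (n : ℝ) ^ 2) := by
      field_simp; ring
    rw [e2]
    exact div_le_div_of_nonneg_right (by linarith) (by positivity)
  set d : ℝ := (k : ℝ) ^ 2 * log n / (81920 * (n : ℝ) ^ 2) with hdd
  have hd0 : 0 ≤ d := by
    have : 0 ≤ log (n : ℝ) := by linarith
    positivity
  have main := hsys.entropy_le hd (by rw [card_grid]; positivity) (τ := 1 / (96 * M * n))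
    (amax := 1 / (16 * n)) (by positivity)
    (fun v hv' => by have := (hv v hv').1; positivity)
    (fun v hv' => by
      have := hv v hv'
      refine one_div_le_one_div_of_le (by have := this.1; positivity) ?_
      nlinarith [this.2])
    (fun v hv' => by
      have := hv v hv'
      refine one_div_le_one_div_of_le (by positivity) ?_
      nlinarith [this.1])
    (by positivity) (T := T) (by omega)
    (by rw [mul_one_div, div_le_one (by positivity)]; linarith)
    (by linarith) (d := d)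
    (by
      refine le_trans ?_ (div_le_div_of_nonneg_right hΛ (by norm_num))
      rw [hdd, div_le_iff₀ (by positivity)]
      have : (k : ℝ) ^ 2 ≤ 4 * (n : ℝ) ^ 2 := by nlinarith
      have h2 : (k : ℝ) ^ 2 * log n ≤ 4 * (n : ℝ) ^ 2 * log n :=
        mul_le_mul_of_nonneg_right this (by linarith)
      have h3 : 0 ≤ (n : ℝ) ^ 2 * log n := mul_nonneg (by positivity) (by linarith)
      nlinarith)
    (by
      have t1 : (k : ℝ) ^ 2 / 5 ≤ T * (T + 1) := by nlinarith
      have t2 : log n / (1024 * (n : ℝ) ^ 2) * ((k : ℝ) ^ 2 / 5)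
          ≤ (∑ v ∈ dirs M, (1 / (8 * (((v.1 : ℝ) + v.2) * n))) ^ 2) * (T * (T + 1)) :=
        mul_le_mul hB t1 (by positivity) (sum_nonneg fun _ _ => sq_nonneg _)
      have e : d = log n / (1024 * (n : ℝ) ^ 2) * ((k : ℝ) ^ 2 / 5) / 16 := by
        rw [hdd]; field_simp; ring
      rw [e]
      exact div_le_div_of_nonneg_right t2 (by norm_num))
  rw [hH, hG] at main
  have hc : (0 : ℝ) < F.card := by exact_mod_cast card_pos.2 hne
  have hZ : (0 : ℝ) < F.card * k.factorial := by positivity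
  rw [← exp_log hZ, ← exp_log (x := ((n : ℝ) ^ 2) ^ k) (by positivity), ← exp_add, exp_le_exp,
    log_pow]
  have e : 1 / 327680 * (k : ℝ) ^ 3 * log n / (n : ℝ) ^ 2 = k / 4 * d := by
    rw [hdd]; field_simp; ring
  rw [e]
  have : (k : ℝ) / 4 * d ≤ ((k : ℝ) - T - 1) * d := mul_le_mul_of_nonneg_right (by linarith) hd0
  linarith

end Pool.Agent.MP_67c479_co.H41
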