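import Pool.Agent.MP_67c479_co.H41.Core

/-!
The triple inequality and the resulting bound on the total entropy.
-/

namespace Pool.Agent.MP_67c479_co.H41

open Finset Real

set_option linter.unusedSectionVars false

variable {α : Type*} [DecidableEq α] {ι : Type*} [DecidableEq ι]
variable {G : Finset α} {k : ℕ} {m : Finset α → ℝ} {V : Finset ι} {f : ι → α → ℤ} {L : ι → ℝ}

lemma Sys.pair_count (h : Sys G k m) (hd : Dirs G m V f L) {W : Finset α} (hW : W ⊆ G)
    (hc : W.card + 2 ≤ k) (h0 : 0 < m W) {Q R : α} (hQ : Q ∈ G \ W) (hR : R ∈ G \ W) :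
    (∑ P ∈ W, ∑ v ∈ V, if Q ≠ R ∧ f v Q = f v P ∧ f v R = f v P then qq m W Q R else 0)
      ≤ 2 * psi (pp m W Q R) (qq m W Q R) := by
  by_cases hex : ∃ P ∈ W, ∃ v ∈ V, Q ≠ R ∧ f v Q = f v P ∧ f v R = f v P
  · obtain ⟨P0, hP0, v0, hv0, hQR, e1, e2⟩ := hex
    have hQ' := mem_sdiff.1 hQ
    have hR' := mem_sdiff.1 hR
    have hp : pp m W Q R = 0 := by
      by_contra hp
      have hpos : 0 < m (insert R (insert Q W)) := by
        have : pp m W Q R = m (insert R (insert Q W)) := by simp [pp, hQR]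
        rw [← this]
        exact lt_of_le_of_ne (h.pp_nonneg _ _ _) (Ne.symm hp)
      have h2 := hd.two _ (insert_subset hR'.1 (insert_subset hQ'.1 hW)) hpos v0 hv0 (f v0 P0)
      have hsub : ({R, Q, P0} : Finset α)
          ⊆ (insert R (insert Q W)).filter (fun P => f v0 P = f v0 P0) := by
        intro x hx
        simp only [mem_insert, mem_singleton] at hx
        rcases hx with rfl | rfl | rfl <;> simp [*]
      have h3 : ({R, Q, P0} : Finset α).card = 3 := by
        rw [card_eq_three]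
        refine ⟨R, Q, P0, hQR.symm, ?_, ?_, rfl⟩
        · rintro rfl; exact hR'.2 hP0
        · rintro rfl; exact hQ'.2 hP0
      have := card_le_card hsub
      omega
    rw [hp, psi_zero]
    have hq := h.qq_nonneg W Q R
    have h1 : ∀ P ∈ W, (∑ v ∈ V, if Q ≠ R ∧ f v Q = f v P ∧ f v R = f v P then qq m W Q R else 0)
        ≤ if f v0 P = f v0 Q then qq m W Q R else 0 := by
      intro P _
      have : (if f v0 P = f v0 Q then qq m W Q R else 0)
          = ∑ v ∈ V, if v0 = v then (if f v0 P = f v0 Q then qq m W Q R else 0) else 0 := by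
        rw [sum_ite_eq, if_pos hv0]
      rw [this]
      refine sum_le_sum fun v hv => ?_
      by_cases hcond : Q ≠ R ∧ f v Q = f v P ∧ f v R = f v P
      · have hvv : v0 = v := hd.uniq v0 hv0 v hv Q hQ'.1 R hR'.1 hQR (e1.trans e2.symm)
          (hcond.2.1.trans hcond.2.2.symm)
        subst hvv
        rw [if_pos hcond, if_pos rfl, if_pos hcond.2.1.symm]
      · rw [if_neg hcond]
        split_ifs
        · exact hq
        · exact le_rfl
        · exact le_rfl
    refine le_trans (sum_le_sum h1) ?_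
    rw [← sum_filter, sum_const, nsmul_eq_mul]
    have h2 : ((W.filter (fun P => f v0 P = f v0 Q)).card : ℝ) ≤ 2 := by
      exact_mod_cast hd.two W hW h0 v0 hv0 (f v0 Q)
    exact mul_le_mul_of_nonneg_right h2 hq
  · have : (∑ P ∈ W, ∑ v ∈ V, if Q ≠ R ∧ f v Q = f v P ∧ f v R = f v P then qq m W Q R else 0)
        = 0 :=
      sum_eq_zero fun P hP => sum_eq_zero fun v hv => if_neg fun hcond => hex ⟨P, hP, v, hv, hcond⟩
    rw [this]
    have := h.psi_nonneg' hW hc hQ hR
    linarith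

lemma Sys.line_pairs (h : Sys G k m) (τ a : ℝ) (g : α → ℤ) (P : α) {W : Finset α}
    (h0 : 0 < m W) :
    (2 * a - τ) * Y G m τ g P W - a ^ 2 * m W
      ≤ ∑ Q ∈ G \ W, ∑ R ∈ G \ W, if Q ≠ R ∧ g Q = g P ∧ g R = g P then qq m W Q R else 0 := by
  set T := (lt G m τ W).filter (fun Q => g Q = g P) with hT
  have hTs : T ⊆ G \ W := (filter_subset _ _).trans (lt_subset G m τ W)
  have h1 := sum_offdiag T (fun Q => m (insert Q W)) (τ * m W) (fun Q _ => h.nonneg _)
    (fun Q hQ => lt_le (mem_filter.1 hQ).1)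
  have hite : ∀ Q R, 0 ≤ if Q ≠ R ∧ g Q = g P ∧ g R = g P then qq m W Q R else 0 := by
    intro Q R
    split_ifs
    · exact h.qq_nonneg _ _ _
    · exact le_rfl
  have h2 : (∑ Q ∈ T, ∑ R ∈ T, if Q ≠ R then m (insert Q W) * m (insert R W) else 0) / m W
      ≤ ∑ Q ∈ G \ W, ∑ R ∈ G \ W, if Q ≠ R ∧ g Q = g P ∧ g R = g P then qq m W Q R else 0 := by
    rw [sum_div]
    refine le_trans (sum_le_sum fun Q hQ => ?_)
      (sum_le_sum_of_subset_of_nonneg hTs fun Q _ _ => sum_nonneg fun R _ => hite Q R)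
    rw [sum_div]
    refine le_trans (sum_le_sum fun R hR => ?_)
      (sum_le_sum_of_subset_of_nonneg hTs fun R _ _ => hite Q R)
    by_cases hQR : Q ≠ R
    · rw [if_pos hQR, if_pos ⟨hQR, (mem_filter.1 hQ).2, (mem_filter.1 hR).2⟩]
      exact le_rfl
    · rw [if_neg hQR, if_neg (fun hc => hQR hc.1)]
      simp
  refine le_trans ?_ h2
  rw [le_div_iff₀ h0]
  refine le_trans ?_ h1
  have hY : Y G m τ g P W = ∑ Q ∈ T, m (insert Q W) := rfl
  rw [← hY]
  nlinarith [sq_nonneg (Y G m τ g P W - a * m W)]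

lemma Sys.local_triple (h : Sys G k m) (hd : Dirs G m V f L) (τ : ℝ) (a : ι → ℝ) {W : Finset α}
    (hW : W ⊆ G) (hc : W.card + 2 ≤ k) :
    ∑ P ∈ W, ∑ v ∈ V, ((2 * a v - τ) * Y G m τ (f v) P W - a v ^ 2 * m W) ≤ 2 * J G m W := by
  rcases (h.nonneg W).eq_or_lt with h0 | h0
  · have hz : ∑ P ∈ W, ∑ v ∈ V, ((2 * a v - τ) * Y G m τ (f v) P W - a v ^ 2 * m W) = 0 := by
      refine sum_eq_zero fun P _ => sum_eq_zero fun v _ => ?_
      have : Y G m τ (f v) P W = 0 := sum_eq_zero fun Q hQ =>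
        h.zero_of_zero hW (by omega) h0.symm (lt_subset G m τ W (mem_filter.1 hQ).1)
      rw [this, ← h0]; ring
    rw [hz]
    have : 0 ≤ J G m W := sum_nonneg fun _ hQ => sum_nonneg fun _ hR => h.psi_nonneg' hW hc hQ hR
    linarith
  · refine le_trans (sum_le_sum fun P _ => sum_le_sum fun v _ =>
      h.line_pairs τ (a v) (f v) P h0) ?_
    have e : (∑ P ∈ W, ∑ v ∈ V, ∑ Q ∈ G \ W, ∑ R ∈ G \ W,
          if Q ≠ R ∧ f v Q = f v P ∧ f v R = f v P then qq m W Q R else 0)
        = ∑ Q ∈ G \ W, ∑ R ∈ G \ W, ∑ P ∈ W, ∑ v ∈ V,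
          if Q ≠ R ∧ f v Q = f v P ∧ f v R = f v P then qq m W Q R else 0 := by
      rw [sum_congr rfl fun P _ => sum_comm, sum_comm]
      refine sum_congr rfl fun Q _ => ?_
      rw [sum_congr rfl fun P _ => sum_comm, sum_comm]
    rw [e]
    unfold J
    rw [mul_sum]
    refine sum_le_sum fun Q hQ => ?_
    rw [mul_sum]
    exact sum_le_sum fun R hR => h.pair_count hd hW hc h0 hQ hR

/-- Step (3). -/
lemma Sys.triples (h : Sys G k m) (hd : Dirs G m V f L) {τ amax : ℝ} (hτ : 0 ≤ τ)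
    (hL0 : ∀ v ∈ V, 0 < L v) (hτL : ∀ v ∈ V, τ ≤ 1 / (48 * L v))
    (hmax : ∀ v ∈ V, 1 / (8 * L v) ≤ amax) (hmax0 : 0 ≤ amax) {t : ℕ} (ht : t + 3 ≤ k)
    (htm : (t + 1) * amax ≤ 1) (hh : A G t (hv G m τ) ≤ 1 / 4) :
    (t + 1) * (∑ v ∈ V, (1 / (8 * L v)) ^ 2) / 4 ≤ A G (t + 1) (J G m) + A G t (J G m) := by
  set a : ι → ℝ := fun v => 1 / (8 * L v) with ha
  have h1 : A G (t + 1) (fun W => ∑ P ∈ W, ∑ v ∈ V,
      ((2 * a v - 3 * τ) * Y G m (3 * τ) (f v) P W - a v ^ 2 * m W))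
      ≤ A G (t + 1) (fun W => 2 * J G m W) :=
    A_mono fun W hW hc => h.local_triple hd (3 * τ) a hW (by omega)
  rw [A_mul, A_mem] at h1
  have h2 : A G t (fun W => ∑ P ∈ G \ W, ∑ v ∈ V,
      ((2 * a v - 3 * τ) * Y G m (3 * τ) (f v) P (insert P W) - a v ^ 2 * m (insert P W)))
      = ∑ v ∈ V, ((2 * a v - 3 * τ)
          * A G t (fun W => ∑ P ∈ G \ W, Y G m (3 * τ) (f v) P (insert P W)) - a v ^ 2) := by
    have e : A G t (fun W => ∑ P ∈ G \ W, ∑ v ∈ V,
        ((2 * a v - 3 * τ) * Y G m (3 * τ) (f v) P (insert P W) - a v ^ 2 * m (insert P W)))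
        = A G t (fun W => ∑ v ∈ V, ((2 * a v - 3 * τ)
          * (∑ P ∈ G \ W, Y G m (3 * τ) (f v) P (insert P W)) - a v ^ 2 * m W)) := by
      refine A_congr fun W hW hc => ?_
      rw [sum_comm]
      refine sum_congr rfl fun v _ => ?_
      rw [sum_sub_distrib, ← mul_sum, ← mul_sum, h.mart W hW (by omega)]
    rw [e, A_sum]
    refine sum_congr rfl fun v _ => ?_
    rw [A_sub, A_mul, A_mul, h.A_m t (by omega), mul_one]
  rw [h2] at h1
  have h3 : ∑ v ∈ V, (a v ^ 2 / 2 - 2 * amax * A G t (D G m τ (f v)))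
      ≤ ∑ v ∈ V, ((2 * a v - 3 * τ)
          * A G t (fun W => ∑ P ∈ G \ W, Y G m (3 * τ) (f v) P (insert P W)) - a v ^ 2) := by
    refine sum_le_sum fun v hv => ?_
    have hLv := hL0 v hv
    have b1 : 3 * τ ≤ a v / 2 := by
      have := hτL v hv
      have e : a v / 2 = 3 * (1 / (48 * L v)) := by
        simp only [ha]; field_simp; ring
      linarith
    have b0 : 0 < a v := by simp only [ha]; positivity
    have b2 : τ ≤ 1 / (4 * L v) := by
      refine le_trans (hτL v hv) ?_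
      exact one_div_le_one_div_of_le (by positivity) (by linarith)
    have b3 := h.pairs hτ (f v) (hd.lines v hv) hLv b2 (t := t) (by omega) hh
    have b4 : 0 ≤ A G t (D G m τ (f v)) :=
      A_nonneg fun W hW hc => h.D_nonneg τ (f v) hW (by omega)
    have b5 : a v ≤ amax := hmax v hv
    have b6 : (2 * a v - 3 * τ) * (a v - A G t (D G m τ (f v)))
        ≤ (2 * a v - 3 * τ) * A G t (fun W => ∑ P ∈ G \ W, Y G m (3 * τ) (f v) P (insert P W)) :=
      mul_le_mul_of_nonneg_left b3 (by linarith)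
    nlinarith [mul_nonneg hτ b4, mul_nonneg (sub_nonneg.2 b5) b4,
      mul_nonneg (sub_nonneg.2 b1) b0.le]
  rw [sum_sub_distrib, ← sum_div, ← mul_sum] at h3
  have h4 : ∑ v ∈ V, A G t (D G m τ (f v)) ≤ A G t (J G m) := by
    rw [← A_sum]
    exact A_mono fun W hW hc => h.sum_D hd τ hW (by omega)
  have h5 := h.A_J_nonneg (t := t) (by omega)
  have h6 : (0 : ℝ) ≤ t + 1 := by positivity
  have h7 := mul_le_mul_of_nonneg_left h3 h6
  have h8 : (t + 1) * (2 * amax * ∑ v ∈ V, A G t (D G m τ (f v))) ≤ 2 * A G t (J G m) := by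
    have c1 : (t + 1) * amax * ∑ v ∈ V, A G t (D G m τ (f v)) ≤ (t + 1) * amax * A G t (J G m) :=
      mul_le_mul_of_nonneg_left h4 (mul_nonneg h6 hmax0)
    have c2 : (t + 1) * amax * A G t (J G m) ≤ 1 * A G t (J G m) :=
      mul_le_mul_of_nonneg_right htm h5
    nlinarith
  nlinarith

lemma Sys.H_eq (h : Sys G k m) (t : ℕ) :
    H G m t = t * log G.card - ∑ s ∈ range t, dl G m s := by
  induction t with
  | zero => simp [H, A_zero, h.empty]
  | succ t ih =>
    rw [sum_range_succ]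
    have : dl G m t = log G.card - (H G m (t + 1) - H G m t) := rfl
    push_cast
    linarith

/-- The entropy bound. -/
theorem Sys.entropy_le (h : Sys G k m) (hd : Dirs G m V f L) (hG : 0 < G.card) {τ amax : ℝ}
    (hτ : 0 < τ) (hL0 : ∀ v ∈ V, 0 < L v) (hτL : ∀ v ∈ V, τ ≤ 1 / (48 * L v))
    (hmax : ∀ v ∈ V, 1 / (8 * L v) ≤ amax) (hmax0 : 0 ≤ amax) {T : ℕ} (hT : T + 2 ≤ k)
    (hTm : T * amax ≤ 1) (hΛ : 0 < log (τ * G.card) - 1) {d : ℝ}
    (hd1 : d ≤ (log (τ * G.card) - 1) / 4)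
    (hd2 : d ≤ (∑ v ∈ V, (1 / (8 * L v)) ^ 2) * (T * (T + 1)) / 16) :
    H G m k ≤ k * log G.card - ((k : ℝ) - T - 1) * d := by
  set B := ∑ v ∈ V, (1 / (8 * L v)) ^ 2 with hB
  have key : d ≤ dl G m (T + 1) := by
    by_contra hlt
    rw [not_le] at hlt
    have ind : ∀ s ≤ T, B * (s * (s + 1)) / 8 ≤ dl G m (s + 1) + dl G m s := by
      intro s
      induction s with
      | zero =>
        intro _
        have := h.dl_nonneg hG (t := 0) (by omega)
        have := h.dl_nonneg hG (t := 0 + 1) (by omega)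
        simp only [Nat.cast_zero, zero_mul, mul_zero, zero_div]
        linarith
      | succ s ih =>
        intro hs
        have i1 := ih (by omega)
        have i2 := h.dl_succ (t := s + 1) (by omega)
        have i3 := h.dl_succ (t := s) (by omega)
        have i4 : dl G m s ≤ dl G m (T + 1) := h.dl_mono (by omega) (by omega)
        have i5 := h.heavy hG hτ (t := s) (by omega)
        have i6 : A G s (hv G m τ) ≤ 1 / 4 := by
          by_contra hc
          rw [not_le] at hc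
          have := mul_lt_mul_of_pos_left hc hΛ
          linarith
        have i7 : ((s : ℝ) + 1) * amax ≤ 1 := by
          refine le_trans (mul_le_mul_of_nonneg_right ?_ hmax0) hTm
          exact_mod_cast hs
        have i8 := h.triples hd hτ.le hL0 hτL hmax hmax0 (t := s) (by omega) i7 i6
        rw [← hB] at i8
        push_cast
        nlinarith
    have j1 := ind T le_rfl
    have j2 : dl G m T ≤ dl G m (T + 1) := h.dl_mono (by omega) (by omega)
    linarith
  rw [h.H_eq k]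
  have s1 : ∑ s ∈ Ico (T + 1) k, dl G m s ≤ ∑ s ∈ range k, dl G m s := by
    refine sum_le_sum_of_subset_of_nonneg ?_ fun s hs _ => h.dl_nonneg hG (mem_range.1 hs)
    intro s hs
    exact mem_range.2 (mem_Ico.1 hs).2
  have s2 : ∑ _s ∈ Ico (T + 1) k, d ≤ ∑ s ∈ Ico (T + 1) k, dl G m s :=
    sum_le_sum fun s hs => key.trans (h.dl_mono (mem_Ico.1 hs).1 (mem_Ico.1 hs).2)
  rw [sum_const, nsmul_eq_mul, Nat.card_Ico, Nat.cast_sub (by omega)] at s2
  push_cast at s2
  have : ((k : ℝ) - T - 1) = k - (T + 1) := by ring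
  rw [this]
  linarith

end Pool.Agent.MP_67c479_co.H41
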